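import Pool.Agent.Y127.NDefs

/-!
# Nodal families: determinants and towers with arbitrary exponents
-/

open CategoryTheory AlgebraicGeometry

universe u

namespace Pool.Agent.R929.NT

section Alg

variable {K : Type} [Field K] {A : Type} [Ring A] [Algebra K A] {B : Type} [Ring B] [Algebra K B]

/-- For all `t 0, t 1, … ∈ T` the alternating sum
`∑ sign(σ) f 0 (t (σ 0)) * f 1 (t (σ 1)) * ⋯` over all permutations `σ` is in `C`. -/
def AltIn {N : ℕ} (f : Fin N → A →ₐ[K] B) (T : Submodule K A) (C : Submodule K B) : Prop :=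
  ∀ t : Fin N → T, ∑ σ : Equiv.Perm (Fin N),
    (Equiv.Perm.sign σ : ℤ) • (List.ofFn fun p => f p (t (σ p))).prod ∈ C

end Alg

open Pool.Agent.H914 Pool.Agent.H914.VarClass Pool.Agent.H281R3.HT Pool.Agent.TH125.Gal

variable {k : Type u} [Field k] {𝒱 : VarClass k} {ops : CycleOps 𝒱}

/-- The determinant of the transcendental cohomology `T` of `X`, the line in the cohomology of
`X ^ N`, `N = dim T`, which is spanned by `∑ sign(σ) pr_1^* t_σ(1) ⋯ pr_N^* t_σ(N)` for a basis
`t_1, …, t_N` of `T`, consists of combinations of classes of algebraic cycles. -/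
def DetAlg (W : WeilCohomology.{u, 0} ops) (X : 𝒱.Obj) : Prop :=
  ∀ n, n + 1 = transRank W X → AltIn (fun p => W.map (powerPrj ops X n p)) (transcendental W X)
    (algSpan W (power ops X n))

variable {W : WeilCohomology.{u, 0} ops} {Γ : Type} [Group Γ]

/-- The varieties `Y = X_1^(n_1) × (X_2^(n_2) × ( ⋯ × Z))`, where the `X_i` are pairwise different
members of the family `X` and `n_i ≥ 1`. Here `S` is the set of the indices which are used, and `L`
is the set of all `i ∈ S` such that `X_i` has even dimension and `n_i` is not less than the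
dimension of the transcendental cohomology of `X_i`. -/
inductive DTower {ι : Type} (X : ι → GVar W Γ) (Z : GVar W Γ) :
    Set ι → Set ι → GVar W Γ → Prop
  | base : DTower X Z ∅ ∅ Z
  | small {S L Y Y'} (i : ι) (n : ℕ) : DTower X Z S L Y → i ∉ S →
      (Even (X i).X.dim → n + 1 < transRank W (X i).X) → IsPowProd (X i) n Y Y' →
      DTower X Z (insert i S) L Y'
  | large {S L Y Y'} (i : ι) (n : ℕ) : DTower X Z S L Y → i ∉ S → Even (X i).X.dim →
      transRank W (X i).X ≤ n + 1 → IsPowProd (X i) n Y Y' →
      DTower X Z (insert i S) (insert i L) Y'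

end Pool.Agent.R929.NT
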