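import Pool.Agent.Y127.NDefs

/-!
# Nodal families: the discriminants
-/

open CategoryTheory AlgebraicGeometry

universe u

namespace Pool.Agent.R929.NT

section Alg

variable {K : Type} [Field K] {A : Type} [Ring A] [Algebra K A] {Γ : Type} [Group Γ]

/-- All elements `a` of the sets `C j` satisfy `g a = χ g ^ j • a` for `g ∈ Δ`: the algebraic
classes are defined over the field with Galois group `Δ`. -/
def DefinedOver (χ : Γ →* Kˣ) (Δ : Subgroup Γ) (C : ℕ → Set A) (ρ : Γ →* (A ≃ₐ[K] A)) : Prop :=
  ∀ j, ∀ a ∈ C j, ∀ g ∈ Δ, ρ g a = (χ g : K) ^ j • a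

open Classical in
/-- The discriminant character: the determinant of `g` on the stable subspace `T`, divided by the
power of `χ g ^ (d / 2)` with the exponent `rank T`. -/
noncomputable def discChar (χ : Γ →* Kˣ) (d : ℕ) (T : Submodule K A) (ρ : Γ →* (A ≃ₐ[K] A))
    (g : Γ) : K :=
  (if h : ∀ x ∈ T, (ρ g).toLinearMap x ∈ T then LinearMap.det ((ρ g).toLinearMap.restrict h)
    else 1) * (((χ g : K) ^ (d / 2)) ^ Module.finrank K T)⁻¹

/-- The group `Δ'` contains a subgroup `Δ` of finite index over which all algebraic classes in the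
`A i`, `i ∈ S`, and in `B` are defined and on which the discriminant characters of the `T i ≤ A i`
with `i ∈ L` and `d i` even are independent: no product of different ones is trivial on `Δ`. -/
def Indep (χ : Γ →* Kˣ) {ι : Type} {A : ι → Type} [∀ i, Ring (A i)] [∀ i, Algebra K (A i)]
    (d : ι → ℕ) (T : ∀ i, Submodule K (A i)) (C : ∀ i, ℕ → Set (A i))
    (ρ : ∀ i, Γ →* (A i ≃ₐ[K] A i)) {B : Type} [Ring B] [Algebra K B] (C' : ℕ → Set B)
    (ρ' : Γ →* (B ≃ₐ[K] B)) (S L : Set ι) (Δ' : Subgroup Γ) : Prop :=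
  ∃ Δ ≤ Δ', Δ.FiniteIndex ∧ (∀ i ∈ S, DefinedOver χ Δ (C i) (ρ i)) ∧ DefinedOver χ Δ C' ρ' ∧
    ∀ I : Finset ι, I.Nonempty → (∀ i ∈ I, i ∈ L ∧ Even (d i)) →
      ∃ g ∈ Δ, ∏ i ∈ I, discChar χ (d i) (T i) (ρ i) g ≠ 1

end Alg

open Pool.Agent.H914 Pool.Agent.TH125.Gal

variable {k : Type u} [Field k] {𝒱 : VarClass k} {ops : CycleOps 𝒱}
  {W : WeilCohomology.{u, 0} ops} {Γ : Type} [Group Γ]

/-- The group `Δ'` (the Galois group of a field `F'`) contains a subgroup `Δ` of finite index (the
Galois group of a finite extension) over which all algebraic classes on the `X i`, `i ∈ S`, and on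
`Z` are defined and on which the discriminant characters of the even-dimensional `X i`, `i ∈ L`, are
independent: no product of different ones is trivial on `Δ`. The discriminant character of `X` is the
determinant on the transcendental cohomology `T`, divided by `χ ^ (dim X / 2 * dim T)`. -/
def IndepDiscs (χ : Γ →* W.Kˣ) {ι : Type} (X : ι → GVar W Γ) (Z : GVar W Γ) (S L : Set ι)
    (Δ' : Subgroup Γ) : Prop :=
  Indep χ (fun i => (X i).X.dim) (fun i => transcendental W (X i).X)
    (fun i => algClasses W (X i).X) (fun i => (X i).act) (algClasses W Z.X) Z.act S L Δ'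

end Pool.Agent.R929.NT
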