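import Pool.Agent.Y127.G.KDefs
import Pool.Agent.R929.NT.Defs

/-!
# Nodal families: the discriminants, auxiliary definitions
-/

open CategoryTheory AlgebraicGeometry

universe u

namespace Pool.Agent.R929.NT

open Pool.Agent.H914 Pool.Agent.TH125.Gal Pool.Agent.Y127

variable {k : Type u} [Field k] {𝒱 : VarClass k} {ops : CycleOps 𝒱}
  {W : WeilCohomology.{u, 0} ops} {Γ : Type} [Group Γ]

/-- the algebraic classes are defined over the field -/
def AlgOver (χ : Γ →* W.Kˣ) (Δ : Subgroup Γ) (Y : GVar W Γ) : Prop :=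
  G.DefinedAct χ Δ (algClasses W Y.X) Y.act

/-- the discriminant character -/
noncomputable def disc (χ : Γ →* W.Kˣ) (X : GVar W Γ) : Γ → W.K :=
  G.discrAct χ X.X.dim (transcendental W X.X) X.act

theorem indepDiscs_iff (χ : Γ →* W.Kˣ) {ι : Type} (X : ι → GVar W Γ) (Z : GVar W Γ) (S L : Set ι)
    (Δ' : Subgroup Γ) : IndepDiscs χ X Z S L Δ' ↔
      ∃ Δ ≤ Δ', Δ.FiniteIndex ∧ (∀ i ∈ S, AlgOver χ Δ (X i)) ∧ AlgOver χ Δ Z ∧
        ∀ I : Finset ι, I.Nonempty → (∀ i ∈ I, i ∈ L ∧ Even (X i).X.dim) →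
          ∃ g ∈ Δ, ∏ i ∈ I, disc χ (X i) g ≠ 1 := Iff.rfl

end Pool.Agent.R929.NT
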