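import Pool.Agent.Y127.G.Fin
import Pool.Agent.R929.NT.DiscAux

/-!
# Towers over nodal families: twisted classes
-/

open CategoryTheory AlgebraicGeometry Finset Function

set_option linter.unusedSectionVars false

universe u

namespace Pool.Agent.R929.NT

open Pool.Agent.H914 Pool.Agent.H914.VarClass Pool.Agent.H914.VarClass.Obj
  Pool.Agent.H914.WeilCohomology Pool.Agent.H281R3.HT Pool.Agent.W552 Pool.Agent.TH125.Gal
  Pool.Agent.Y127 Pool.Agent.Y127.G

variable {k : Type u} [Field k] {𝒱 : VarClass k} {ops : CycleOps 𝒱}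
  {W : WeilCohomology.{u, 0} ops} {Γ : Type} [Group Γ] {χ : Γ →* W.Kˣ}

section step

variable {P : Polarized 𝒱} {n : ℕ} {Z : 𝒱.Obj} {s : SB W P.X}
  {ρ : Γ →* (W.H P.X ≃ₐ[W.K] W.H P.X)}
  {τ : Γ →* (W.H Z ≃ₐ[W.K] W.H Z)}
  {υ : Γ →* (W.H ((nest ops n fun _ => P).X.prod Z) ≃ₐ[W.K]
    W.H ((nest ops n fun _ => P).X.prod Z))}

/-- The Lie algebra kills the coordinates, even dimension. -/
theorem inv_even {b : Module.Basis (Fin (n + 1) → Fin s.NC ⊕ Fin s.NT) W.K
      (W.H (nest ops n fun _ => P).X)}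
    (hb : ∀ r, b r = mono (prj ops n fun _ => P) fun p => s.e (r p))
    (hDX : HomEqNum W P.X) (hmid : transcendental W P.X ≤ W.gr P.X P.X.dim)
    (hG : IsGalois W χ P.X ρ) (hP : IsPowAct W P n Z ρ τ υ)
    (hirr : StronglyIrreducible ρ (transcendental W P.X)) {g : Γ} (hχ : χ g = 1) (hτ : τ g = 1)
    (heven : Even P.X.dim) (hK : FewRoots W.K) (hPL : PLFull W P.X (ρ g))
    {c : W.H ((nest ops n fun _ => P).X.prod Z)} {j : ℕ} {Δ : Subgroup Γ} (hΔ : Δ.FiniteIndex)
    (hc : ∀ g ∈ Δ, υ g c = (χ g : W.K) ^ j • c) (c₀ : Fin (n + 1) → Option (Fin s.NC)) :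
    TH125.Nod.Inv (fun _ : Fin s.NT => ()) (gram s) (fun _ => 1)
      (fun r : Free c₀ → Fin s.NT => hS s b c c₀ fun l => s.uT (r l)) := by
  obtain ⟨δ, hδ, hδ0, x, hx, hgx⟩ := hPL
  have hsy : ∀ a b : transcendental W P.X, rform W P.X (transcendental W P.X) a b =
      ((1 : ℤ) : W.K) * rform W P.X (transcendental W P.X) b a := by
    intro a b
    rw [rform_apply, rform_apply, trans_symm hmid a.2 b.2, heven.neg_one_pow, Int.cast_one]
  have hkill : ∀ u v, Kill (rk (rform W P.X (transcendental W P.X)) v u -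
      (1 : W.K) • rk (rform W P.X (transcendental W P.X)) u v) (hS s b c c₀) := by
    by_cases hdim : 2 ≤ Module.finrank W.K (transcendental W P.X)
    · intro u v
      have h1 := (all_mem (S := Free c₀) (s := 1)
        (μ := fun g => (χ g : W.K) ^ P.X.dim) (B := rform W P.X (transcendental W P.X))
        (Or.inl rfl) hsy
        (trans_nondeg hDX) (fun g => pow_ne_zero _ (Units.ne_zero _))
        (fun g a b => bil_act hG g a b) (SI_rhoT hG hirr) (g := g) (δ := ⟨δ, hδ⟩) (c := x)
        (fun h => hδ0 (congrArg Subtype.val h)) hx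
        (fun t => Subtype.ext (hgx t))
        (by rw [hχ, Units.val_one, one_pow])
        (σ := twist (lamb χ s c₀ j) τ)
        (by
          apply LinearMap.ext
          intro z
          rw [twist_apply, lamb_apply, hχ, hτ]
          simp)
        (fun _ => ⟨hK, hdim⟩) u v).2 _ (hS_eqv hb hG hP hΔ hc c₀)
      rw [Int.cast_one] at h1
      exact h1
    · intro u v
      obtain ⟨w, hw⟩ := (finrank_le_one_iff (K := W.K) (V := transcendental W P.X)).1 (by omega)
      obtain ⟨a, rfl⟩ := hw u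
      obtain ⟨a', rfl⟩ := hw v
      have h4 : rk (rform W P.X (transcendental W P.X)) (a' • w) (a • w) -
          (1 : W.K) • rk (rform W P.X (transcendental W P.X)) (a • w) (a' • w) = 0 := by
        apply LinearMap.ext
        intro y
        rw [LinearMap.sub_apply, LinearMap.smul_apply, rk_apply, rk_apply, map_smul, map_smul,
          LinearMap.smul_apply, LinearMap.smul_apply, one_smul, LinearMap.zero_apply, smul_smul,
          smul_smul, smul_eq_mul, smul_eq_mul]
        rw [show a' * (rform W P.X (transcendental W P.X)) w y * a =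
          a * (rform W P.X (transcendental W P.X)) w y * a' by ring, sub_self]
      rw [h4]
      intro y
      refine Finset.sum_eq_zero fun j _ => ?_
      rw [LinearMap.zero_apply]
      exact (hS s b c c₀).map_coord_zero j (update_self _ _ _)
  exact inv_of_kill hkill _

/-- Twisted classes with the structure of Tate classes vanish. -/
theorem tw_of_Tgt (hmid : transcendental W P.X ≤ W.gr P.X P.X.dim)
    (hG : IsGalois W χ P.X ρ) (hP : IsPowAct W P n Z ρ τ υ) (s : SB W P.X) {Δ : Subgroup Γ}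
    (hfix : ∀ g ∈ Δ, ∀ i, ρ g (s.bC i) = (χ g : W.K) ^ s.jC i • (s.bC i : W.H P.X)) {j : ℕ}
    {c : W.H ((nest ops n fun _ => P).X.prod Z)} {ε : Γ → W.K}
    (hcj : c ∈ W.gr _ (2 * j)) (hc : ∀ g ∈ Δ, υ g c = (ε g * (χ g : W.K) ^ j) • c)
    (h1 : c ∈ Tgt s n Z) (hT : TwV W χ Δ ε Z τ) : c = 0 := by
  obtain ⟨N, m, i, φ, hm, hφ, hexp⟩ := exists_expansion s n Z
  have h2 := hexp c h1
  -- uniqueness
  have huni : ∀ (x : Fin N → W.H Z) (l : Fin N),
      ctr (φ l) (∑ l', W.map (fst _ Z) (m l') * W.map (snd _ Z) (x l')) = x l := by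
    intro x l
    rw [map_sum, Finset.sum_eq_single l]
    · rw [ctr_apply, hφ, if_pos rfl, one_smul]
    · intro l' _ hl
      rw [ctr_apply, hφ, if_neg hl, zero_smul]
    · intro h
      exact absurd (Finset.mem_univ _) h
  set x : Fin N → W.H Z := fun l => ctr (φ l) c with hx
  -- degrees
  have hdeg : ∀ l, x l = if 2 * i l ≤ 2 * j then
      proj (W.isInternal Z) (2 * j - 2 * i l) (x l) else 0 := by
    intro l
    have h3 : c = ∑ l', W.map (fst _ Z) (m l') * W.map (snd _ Z)
        (if 2 * i l' ≤ 2 * j then proj (W.isInternal Z) (2 * j - 2 * i l') (x l') else 0) := by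
      conv_lhs => rw [← proj_same (W.isInternal _) hcj, h2]
      rw [map_sum]
      refine Finset.sum_congr rfl fun l' _ => ?_
      obtain ⟨S, hS⟩ := hm l'
      rw [proj_ext (hS.gr hmid)]
      by_cases h : 2 * i l' ≤ 2 * j
      · rw [if_pos h, if_pos h]
      · rw [if_neg h, if_neg h, map_zero, mul_zero]
    conv_lhs => rw [hx]
    beta_reduce
    rw [h3]
    exact huni _ l
  -- semi-invariance
  have hact : ∀ g ∈ Δ, ∀ l,
      (χ g : W.K) ^ i l • τ g (x l) = (ε g * (χ g : W.K) ^ j) • x l := by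
    intro g hg l
    have h3 : υ g c = ∑ l', W.map (fst _ Z) (m l') * W.map (snd _ Z)
        ((χ g : W.K) ^ i l' • τ g (x l')) := by
      conv_lhs => rw [h2]
      rw [map_sum]
      refine Finset.sum_congr rfl fun l' _ => ?_
      obtain ⟨S, hS⟩ := hm l'
      rw [map_mul, mq_act hmid hG hP (hfix g hg) hS, (hP g).2, map_smul, smul_mul_assoc,
        mul_smul_comm]
    have h4 := huni (fun l' => (χ g : W.K) ^ i l' • τ g (x l')) l
    rw [← h3, hc g hg, map_smul] at h4
    exact h4.symm
  have hzero : ∀ l, x l = 0 := by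
    intro l
    by_cases h : 2 * i l ≤ 2 * j
    · have h3 := hdeg l
      rw [if_pos h] at h3
      have h4 : x l ∈ W.gr Z (2 * (j - i l)) := by
        rw [h3, show 2 * (j - i l) = 2 * j - 2 * i l by omega]
        exact proj_mem _ _ _
      refine hT (j - i l) (x l) h4 fun g hg => ?_
      have h6 := hact g hg l
      have h7 : (χ g : W.K) ^ j = (χ g : W.K) ^ i l * (χ g : W.K) ^ (j - i l) := by
        rw [← pow_add]
        congr 1
        omega
      rw [h7, show ε g * ((χ g : W.K) ^ i l * (χ g : W.K) ^ (j - i l)) =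
        (χ g : W.K) ^ i l * (ε g * (χ g : W.K) ^ (j - i l)) by ring, mul_smul] at h6
      exact smul_right_injective _ (pow_ne_zero _ (Units.ne_zero (χ g))) h6
    · have h3 := hdeg l
      rw [if_neg h] at h3
      rw [h3]
  rw [h2]
  refine Finset.sum_eq_zero fun l _ => ?_
  change W.map (fst _ Z) (m l) * W.map (snd _ Z) (x l) = 0
  rw [hzero, map_zero, mul_zero]

end step

end Pool.Agent.R929.NT
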