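import Pool.Agent.R929.NT.DetSum2
import Pool.Agent.R929.NT.Tow

/-!
# The induction step with determinant classes
-/

open CategoryTheory AlgebraicGeometry Finset Function

set_option linter.unusedSectionVars false

universe u

namespace Pool.Agent.R929.NT

open Pool.Agent.H914 Pool.Agent.H914.VarClass Pool.Agent.H914.VarClass.Obj
  Pool.Agent.H914.WeilCohomology Pool.Agent.H281R3.HT Pool.Agent.W552 Pool.Agent.TH125.Gal
  Pool.Agent.Y127 Pool.Agent.Y127.G

variable {k : Type u} [Field k] {𝒱 : VarClass k} {ops : CycleOps 𝒱}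
  {W : WeilCohomology.{u, 0} ops} {Γ : Type} [Group Γ] {χ : Γ →* W.Kˣ}

section step

variable {P : Polarized 𝒱} {n : ℕ} {Z : 𝒱.Obj} {s : SB W P.X}
  {ρ : Γ →* (W.H P.X ≃ₐ[W.K] W.H P.X)}
  {τ : Γ →* (W.H Z ≃ₐ[W.K] W.H Z)}
  {υ : Γ →* (W.H ((nest ops n fun _ => P).X.prod Z) ≃ₐ[W.K]
    W.H ((nest ops n fun _ => P).X.prod Z))}

/-- the span of the external products of the classes `Mqd` with arbitrary classes -/
noncomputable def TgtD (s : SB W P.X) (n : ℕ) (Z : 𝒱.Obj) :
    Submodule W.K (W.H ((nest ops n fun _ => P).X.prod Z)) :=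
  Submodule.span W.K {c | ∃ i m w, Mqd s (prj ops n fun _ => P) i m ∧
    c = W.map (fst _ Z) m * W.map (snd _ Z) w}

/-- classes whose coordinates are generated by the form and determinants are external products -/
theorem mem_TgtD {b : Module.Basis (Fin (n + 1) → Fin s.NC ⊕ Fin s.NT) W.K
      (W.H (nest ops n fun _ => P).X)}
    (hb : ∀ r, b r = mono (prj ops n fun _ => P) fun p => s.e (r p))
    (hmid : transcendental W P.X ≤ W.gr P.X P.X.dim) (heven : Even P.X.dim)
    {c : W.H ((nest ops n fun _ => P).X.prod Z)}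
    (h : ∀ c₀ : Fin (n + 1) → Option (Fin s.NC),
      (fun r : Free c₀ → Fin s.NT => hml s.e b c fun p => s.es (comb c₀ r p)) ∈
      TH125.Nod.Gen (fun _ : Fin s.NT => ()) (gram s) (fun _ : Free c₀ => ()) ⊔
        DGen W.K (W.H Z) (gram s) (Free c₀)) :
    c ∈ TgtD s n Z := by
  rw [expand b c, sum_patterns]
  refine Submodule.sum_mem _ fun c₀ _ => ?_
  obtain ⟨F0, hF0, F1, hF1, hFF⟩ := Submodule.mem_sup.1 (h c₀)
  have h2 : ∀ F ∈ TH125.Nod.Gen (fun _ : Fin s.NT => ())
      (Matrix.of fun i j => bil W P.X (s.uT i) (s.uT j)) (fun _ : Free c₀ => ()),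
      ∑ r : Free c₀ → Fin s.NT, W.map (fst _ Z) (b (comb c₀ r)) * W.map (snd _ Z) (F r : W.H Z) ∈
        TgtD s n Z := by
    intro F hF
    induction hF using Submodule.span_induction with
    | mem F hF =>
      obtain ⟨m, e, w, rfl⟩ := hF
      obtain ⟨ε, S, i, x, hx, h3⟩ := mq_sum (s := s) (π := prj ops n fun _ => P) hmid e
      have h4 : ∑ r : Free c₀ → Fin s.NT, W.map (fst _ Z) (b (comb c₀ r)) *
          W.map (snd _ Z) (TH125.Nod.gen (fun _ : Fin s.NT => ())
            (Matrix.of fun i j => bil W P.X (s.uT i) (s.uT j)) (fun _ : Free c₀ => ()) e w r) =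
          (ε : W.K) • (W.map (fst _ Z) x * W.map (snd _ Z) w) := by
        rw [← smul_mul_assoc, ← map_smul, ← h3, map_sum, Finset.sum_mul]
        refine Finset.sum_congr rfl fun r _ => ?_
        rw [TH125.Nod.gen, if_pos (fun _ => rfl), map_smul, map_smul, mul_smul_comm,
          smul_mul_assoc, hb]
        rfl
      rw [h4]
      exact Submodule.smul_mem _ _ (Submodule.subset_span ⟨i, x, w, Mqd.of hx, rfl⟩)
    | zero =>
      simp only [Pi.zero_apply, map_zero, mul_zero, Finset.sum_const_zero]
      exact Submodule.zero_mem _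
    | add F F' _ _ hF hF' =>
      simp only [Pi.add_apply, map_add, mul_add, Finset.sum_add_distrib]
      exact Submodule.add_mem _ hF hF'
    | smul x F _ hF =>
      simp only [Pi.smul_apply, map_smul, mul_smul_comm]
      rw [← Finset.smul_sum]
      exact Submodule.smul_mem _ _ hF
  have h3 : ∀ F ∈ DGen W.K (W.H Z) (gram s) (Free c₀),
      ∑ r : Free c₀ → Fin s.NT, W.map (fst _ Z) (b (comb c₀ r)) * W.map (snd _ Z) (F r : W.H Z) ∈
        TgtD s n Z := by
    intro F hF
    unfold DGen at hF
    induction hF using Submodule.span_induction with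
    | mem F hF =>
      obtain ⟨m, e, w, rfl⟩ := hF
      obtain ⟨i, x, hx, h3⟩ := det_sum (s := s) (π := prj ops n fun _ => P) hmid heven e
      have h4 : ∑ r : Free c₀ → Fin s.NT, W.map (fst _ Z) (b (comb c₀ r)) *
          W.map (snd _ Z) ((detAt (fun a => e (Sum.inr a)) r *
            ∏ l, gram s (r (e (Sum.inl (l, 0)))) (r (e (Sum.inl (l, 1))))) • w) =
          W.map (fst _ Z) x * W.map (snd _ Z) w := by
        rw [← h3, map_sum, Finset.sum_mul]
        refine Finset.sum_congr rfl fun r _ => ?_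
        rw [map_smul, map_smul, mul_smul_comm, smul_mul_assoc, hb]
        rfl
      rw [h4]
      exact Submodule.subset_span ⟨i, x, w, hx, rfl⟩
    | zero =>
      simp only [Pi.zero_apply, map_zero, mul_zero, Finset.sum_const_zero]
      exact Submodule.zero_mem _
    | add F F' _ _ hF hF' =>
      simp only [Pi.add_apply, map_add, mul_add, Finset.sum_add_distrib]
      exact Submodule.add_mem _ hF hF'
    | smul x F _ hF =>
      simp only [Pi.smul_apply, map_smul, mul_smul_comm]
      rw [← Finset.smul_sum]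
      exact Submodule.smul_mem _ _ hF
  have h4 := Submodule.add_mem _ (h2 _ hF0) (h3 _ hF1)
  rw [← Finset.sum_add_distrib] at h4
  simp only [coord_eq hb]
  refine (Submodule.add_mem_iff_left _ (Submodule.zero_mem (TgtD s n Z))).1 ?_
  rw [add_zero]
  convert h4 using 2 with r
  rw [← mul_add, ← map_add]
  congr 2
  exact (congrFun hFF r).symm

/-- the classes `Mqd` are semi-invariant -/
theorem mqd_act (hmid : transcendental W P.X ≤ W.gr P.X P.X.dim) (hG : IsGalois W χ P.X ρ)
    (hP : IsPowAct W P n Z ρ τ υ) {g : Γ}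
    (hg : ∀ i, ρ g (s.bC i) = (χ g : W.K) ^ s.jC i • (s.bC i : W.H P.X))
    (hd : dsc χ hG g = 1) {i : ℕ} {m : W.H (nest ops n fun _ => P).X}
    (h : Mqd s (prj ops n fun _ => P) i m) :
    υ g (W.map (fst _ Z) m) = (χ g : W.K) ^ i • W.map (fst _ Z) m := by
  induction h with
  | of h => exact mq_act hmid hG hP hg h
  | det e =>
    have h1 : ∀ v : Fin s.NT → transcendental W P.X, υ g (W.map (fst _ Z)
        (detc W (fun a => prj ops n (fun _ => P) (e a)) v)) = W.map (fst _ Z)
        (detc W (fun a => prj ops n (fun _ => P) (e a)) fun a => rhoT hG g (v a)) := by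
      intro v
      rw [detc_apply, detc_apply, map_sum, map_sum, map_sum]
      refine Finset.sum_congr rfl fun σ _ => ?_
      rw [map_zsmul, map_zsmul, map_zsmul]
      congr 1
      rw [mono, mono, map_list_prod, map_list_prod, map_list_prod, List.map_ofFn, List.map_ofFn,
        List.map_ofFn]
      congr 2
      funext p
      exact (hP g).1 (e p) (v (σ p))
    rw [h1, detc_det, map_smul]
    congr 1
    have h2 : LinearMap.det (rhoT hG g) = ((χ g : W.K) ^ (P.X.dim / 2)) ^
        Module.finrank W.K (transcendental W P.X) := by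
      have h3 : ((χ g : W.K) ^ (P.X.dim / 2)) ^ Module.finrank W.K (transcendental W P.X) ≠ 0 :=
        pow_ne_zero _ (pow_ne_zero _ (Units.ne_zero _))
      unfold dsc at hd
      field_simp at hd
      exact hd
    rw [h2, ← pow_mul, Module.finrank_eq_card_basis s.bT, Fintype.card_fin]
  | mul _ _ ih ih' => rw [map_mul, map_mul, ih, ih', smul_mul_smul_comm, pow_add]

/-- Expansion of the elements of `TgtD`. -/
theorem exists_expansionD (s : SB W P.X) (n : ℕ) (Z : 𝒱.Obj) :
    ∃ (N : ℕ) (m : Fin N → W.H (nest ops n fun _ => P).X) (i : Fin N → ℕ)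
      (φ : Fin N → W.H (nest ops n fun _ => P).X →ₗ[W.K] W.K),
      (∀ l, Mqd s (prj ops n fun _ => P) (i l) (m l)) ∧
      (∀ l l', φ l (m l') = if l' = l then 1 else 0) ∧
      ∀ c ∈ TgtD s n Z, c = ∑ l, W.map (fst _ Z) (m l) * W.map (snd _ Z) (ctr (φ l) c) := by
  classical
  obtain ⟨S, hSA, hSspan, hSli⟩ := exists_linearIndependent W.K
    {m | ∃ i, Mqd s (prj ops n fun _ => P) i m}
  have hfin : S.Finite := hSli.setFinite
  have := hfin.fintype
  let eS := Fintype.equivFin S
  have hinj : ∀ l : Fin (Fintype.card S), ∃ i, Mqd s (prj ops n fun _ => P) i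
      ((eS.symm l : S) : W.H (nest ops n fun _ => P).X) := by
    intro l
    obtain ⟨i, h⟩ := hSA (eS.symm l).2
    exact ⟨i, h⟩
  choose i hi using hinj
  let B := Module.Basis.extend hSli
  let φ : Fin (Fintype.card S) → W.H (nest ops n fun _ => P).X →ₗ[W.K] W.K := fun l =>
    B.coord ⟨(eS.symm l : S), Module.Basis.subset_extend hSli (eS.symm l).2⟩
  have hφ : ∀ l l', φ l ((eS.symm l' : S) : W.H (nest ops n fun _ => P).X) =
      if l' = l then 1 else 0 := by
    intro l l'
    have h1 : ((eS.symm l' : S) : W.H (nest ops n fun _ => P).X) =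
        B ⟨(eS.symm l' : S), Module.Basis.subset_extend hSli (eS.symm l').2⟩ :=
      (Module.Basis.extend_apply_self hSli ⟨((eS.symm l' : S) : W.H (nest ops n fun _ => P).X),
        Module.Basis.subset_extend hSli (eS.symm l').2⟩).symm
    change B.coord _ _ = _
    rw [h1, Module.Basis.coord_apply, Module.Basis.repr_self, Finsupp.single_apply]
    congr 1
    apply propext
    rw [Subtype.mk.injEq, Subtype.ext_iff.symm, EmbeddingLike.apply_eq_iff_eq]
  refine ⟨Fintype.card S, fun l => (eS.symm l : S), i, φ, hi, hφ, ?_⟩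
  intro c hc
  induction hc using Submodule.span_induction with
  | mem c hc =>
    obtain ⟨i', m, w, hm, rfl⟩ := hc
    have h1 : m ∈ Submodule.span W.K (Set.range fun l : Fin (Fintype.card S) =>
        ((eS.symm l : S) : W.H (nest ops n fun _ => P).X)) := by
      have h2 : (Set.range fun l : Fin (Fintype.card S) =>
          ((eS.symm l : S) : W.H (nest ops n fun _ => P).X)) = S := by
        ext x
        constructor
        · rintro ⟨l, rfl⟩
          exact (eS.symm l).2
        · intro hx
          exact ⟨eS ⟨x, hx⟩, by simp⟩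
      rw [h2, hSspan]
      exact Submodule.subset_span ⟨i', hm⟩
    obtain ⟨a, ha⟩ := (Submodule.mem_span_range_iff_exists_fun W.K).1 h1
    have h3 : ∀ l, φ l m = a l := by
      intro l
      rw [← ha, map_sum, Finset.sum_eq_single l]
      · rw [map_smul, hφ, if_pos rfl, smul_eq_mul, mul_one]
      · intro l' _ hl
        rw [map_smul, hφ, if_neg hl, smul_zero]
      · intro h
        exact absurd (Finset.mem_univ _) h
    conv_lhs => rw [← ha, map_sum, Finset.sum_mul]
    refine Finset.sum_congr rfl fun l _ => ?_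
    rw [ctr_apply, h3, map_smul, map_smul, smul_mul_assoc, mul_smul_comm]
  | zero => simp
  | add x y _ _ hx hy =>
    conv_lhs => rw [hx, hy]
    rw [← Finset.sum_add_distrib]
    refine Finset.sum_congr rfl fun l _ => ?_
    rw [map_add, map_add, mul_add]
  | smul q x _ hx =>
    conv_lhs => rw [hx]
    rw [Finset.smul_sum]
    refine Finset.sum_congr rfl fun l _ => ?_
    rw [map_smul, map_smul, mul_smul_comm]

/-- **The induction step**, from the structure of the class. -/
theorem step_of_TgtD (hDX : HomEqNum W P.X) (hmid : transcendental W P.X ≤ W.gr P.X P.X.dim)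
    (heven : Even P.X.dim) (hG : IsGalois W χ P.X ρ) (hP : IsPowAct W P n Z ρ τ υ) (s : SB W P.X)
    (hdet : ∀ e : Fin s.NT → Fin (n + 1),
      detc W (fun a => prj ops n (fun _ => P) (e a)) s.bT ∈ algSpan W (nest ops n fun _ => P).X)
    {Δ : Subgroup Γ}
    (hfix : ∀ g ∈ Δ, ∀ i, ρ g (s.bC i) = (χ g : W.K) ^ s.jC i • (s.bC i : W.H P.X))
    (hd : ∀ g ∈ Δ, dsc χ hG g = 1) {j : ℕ}
    {c : W.H ((nest ops n fun _ => P).X.prod Z)}
    (hcj : c ∈ W.gr _ (2 * j)) (hc : ∀ g ∈ Δ, υ g c = (χ g : W.K) ^ j • c)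
    (h1 : c ∈ TgtD s n Z) (hT : TC W χ Δ Z τ) :
    c ∈ Submodule.span W.K (algClasses W _ j) := by
  obtain ⟨N, m, i, φ, hm, hφ, hexp⟩ := exists_expansionD s n Z
  have h2 := hexp c h1
  -- uniqueness
  have huni : ∀ (x : Fin N → W.H Z) (l : Fin N),
      ctr (φ l) (∑ l', W.map (fst _ Z) (m l') * W.map (snd _ Z) (x l')) = x l := by
    intro x l
    rw [map_sum, Finset.sum_eq_single l]
    · rw [ctr_apply, hφ, if_pos rfl, one_smul]
    · intro l' _ hl
      rw [ctr_apply, hφ, if_neg hl, zero_smul]
    · intro h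
      exact absurd (Finset.mem_univ _) h
  set x : Fin N → W.H Z := fun l => ctr (φ l) c with hx
  -- degrees
  have hdeg : ∀ l, x l = if 2 * i l ≤ 2 * j then
      proj (W.isInternal Z) (2 * j - 2 * i l) (x l) else 0 := by
    intro l
    have h3 : c = ∑ l', W.map (fst _ Z) (m l') * W.map (snd _ Z)
        (if 2 * i l' ≤ 2 * j then proj (W.isInternal Z) (2 * j - 2 * i l') (x l') else 0) := by
      conv_lhs => rw [← proj_same (W.isInternal _) hcj, h2]
      rw [map_sum]
      refine Finset.sum_congr rfl fun l' _ => ?_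
      rw [proj_ext ((hm l').gr hmid heven)]
      by_cases h : 2 * i l' ≤ 2 * j
      · rw [if_pos h, if_pos h]
      · rw [if_neg h, if_neg h, map_zero, mul_zero]
    conv_lhs => rw [hx]
    beta_reduce
    rw [h3]
    exact huni _ l
  -- semi-invariance
  have hact : ∀ g ∈ Δ, ∀ l,
      (χ g : W.K) ^ i l • τ g (x l) = (χ g : W.K) ^ j • x l := by
    intro g hg l
    have h3 : υ g c = ∑ l', W.map (fst _ Z) (m l') * W.map (snd _ Z)
        ((χ g : W.K) ^ i l' • τ g (x l')) := by
      conv_lhs => rw [h2]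
      rw [map_sum]
      refine Finset.sum_congr rfl fun l' _ => ?_
      rw [map_mul, mqd_act hmid hG hP (hfix g hg) (hd g hg) (hm l'), (hP g).2, map_smul,
        smul_mul_assoc, mul_smul_comm]
    have h4 := huni (fun l' => (χ g : W.K) ^ i l' • τ g (x l')) l
    rw [← h3, hc g hg, map_smul] at h4
    exact h4.symm
  have halg : ∀ l, x l ∈ algSpan W Z := by
    intro l
    by_cases h : 2 * i l ≤ 2 * j
    · have h3 := hdeg l
      rw [if_pos h] at h3
      have h4 : x l ∈ W.gr Z (2 * (j - i l)) := by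
        rw [h3, show 2 * (j - i l) = 2 * j - 2 * i l by omega]
        exact proj_mem _ _ _
      have h5 := hT (j - i l) (x l) h4 fun g hg => ?_
      · exact Submodule.span_mono (Set.subset_iUnion _ _) h5
      · have h6 := hact g hg l
        have h7 : (χ g : W.K) ^ j = (χ g : W.K) ^ i l * (χ g : W.K) ^ (j - i l) := by
          rw [← pow_add]
          congr 1
          omega
        rw [h7, mul_smul] at h6
        exact smul_right_injective _ (pow_ne_zero _ (Units.ne_zero (χ g))) h6
    · have h3 := hdeg l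
      rw [if_neg h] at h3
      rw [h3]
      exact Submodule.zero_mem _
  refine algSpan_gr ?_ hcj
  rw [h2]
  refine Submodule.sum_mem _ fun l _ => ?_
  exact algSpan_mul (algSpan_map _ ((hm l).alg hDX hmid hdet)) (algSpan_map _ (halg l))

/-- the structure of the invariant classes, even dimension -/
theorem tgtD_of_inv {b : Module.Basis (Fin (n + 1) → Fin s.NC ⊕ Fin s.NT) W.K
      (W.H (nest ops n fun _ => P).X)}
    (hb : ∀ r, b r = mono (prj ops n fun _ => P) fun p => s.e (r p))
    (hmid : transcendental W P.X ≤ W.gr P.X P.X.dim) (heven : Even P.X.dim)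
    {R : Matrix (Fin s.NT) (Fin s.NT) W.K} (hR : gram s * R = 1)
    {c : W.H ((nest ops n fun _ => P).X.prod Z)}
    (hinv : ∀ c₀ : Fin (n + 1) → Option (Fin s.NC),
      TH125.Nod.Inv (fun _ : Fin s.NT => ()) (gram s) (fun _ => 1)
        (fun r : Free c₀ → Fin s.NT => hS s b c c₀ fun l => s.uT (r l))) :
    c ∈ TgtD s n Z := by
  refine mem_TgtD hb hmid heven fun c₀ => ?_
  have h1 := fftSOM (gram_symm hmid heven) hR (Fintype.card (Free c₀)) (Free c₀) _ rfl (hinv c₀)
  have h2 : (fun r : Free c₀ → Fin s.NT => hS s b c c₀ fun j => s.uT (r j)) =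
      fun r : Free c₀ → Fin s.NT => hml s.e b c fun p => s.es (comb c₀ r p) := by
    funext r
    exact hS_comb c c₀ r
  rw [← h2]
  exact h1

end step

end Pool.Agent.R929.NT
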