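import Pool.Agent.R929.NT.Tow

/-!
# Towers over nodal families: the theorems
-/

open CategoryTheory AlgebraicGeometry Finset Function

set_option linter.unusedSectionVars false

universe u

namespace Pool.Agent.R929.NT

open Pool.Agent.H914 Pool.Agent.H914.VarClass Pool.Agent.H914.VarClass.Obj
  Pool.Agent.H914.WeilCohomology Pool.Agent.H281R3.HT Pool.Agent.W552 Pool.Agent.TH125.Gal
  Pool.Agent.Y127 Pool.Agent.Y127.G

variable {k : Type u} [Field k] {𝒱 : VarClass k} {ops : CycleOps 𝒱}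
  {W : WeilCohomology.{u, 0} ops} {Γ : Type} [Group Γ] {χ : Γ →* W.Kˣ}

theorem disc_eq {X : GVar W Γ} (hG : GaloisType χ X) (γ : Γ) :
    disc χ X γ = dsc (P := (⟨X.X, 0⟩ : Polarized 𝒱)) χ (isGalois hG) γ :=
  discr_eq (D := ⟨χ, 0, 1⟩) hG γ

theorem exists_algOver {Y : GVar W Γ} (hG : GaloisType χ Y) :
    ∃ Δ : Subgroup Γ, Δ.FiniteIndex ∧ AlgOver χ Δ Y := exists_algDefined (D := ⟨χ, 0, 1⟩) hG

variable {ι : Type} {X : ι → GVar W Γ} {Z : GVar W Γ} {g : ι → Γ} {S L : Set ι} {Y : GVar W Γ}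

theorem fam_sb (h : PLFamily χ X Z g) (i : ι) (he : Even (X i).X.dim) :
    ∃ (s : SB W (X i).X) (o : Fin s.NT) (R : Matrix (Fin s.NT) (Fin s.NT) W.K),
      (∀ q, q ≠ o → gram (P := (⟨(X i).X, 0⟩ : Polarized 𝒱)) s o q = 0) ∧
        gram (P := (⟨(X i).X, 0⟩ : Polarized 𝒱)) s * R = 1 := by
  refine exists_adapted_SB (P := (⟨(X i).X, 0⟩ : Polarized 𝒱)) (h.nodal i).homEqNum
    (h.nodal i).middle he ?_
  obtain ⟨δ, hδ, hδ0, -⟩ := (h.nodal i).picardLefschetz
  rw [Module.finrank_pos_iff]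
  exact ⟨⟨⟨δ, hδ⟩, 0, fun h => hδ0 (congrArg Subtype.val h)⟩⟩

theorem fam_pot (h : PLFamily χ X Z g) (i : ι) (he : Even (X i).X.dim) : Pot (disc χ (X i)) := by
  obtain ⟨s, o, R, -, hR⟩ := fam_sb h i he
  have h1 := dsc_pot (P := (⟨(X i).X, 0⟩ : Polarized 𝒱)) (isGalois (h.nodal i).galois) he hR
  rwa [show disc χ (X i) = dsc (P := (⟨(X i).X, 0⟩ : Polarized 𝒱)) χ
    (isGalois (h.nodal i).galois) from funext fun γ => disc_eq (h.nodal i).galois γ]

/-- One step, twisted classes. -/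
theorem tw_one (h : PLFamily χ X Z g) {Δ : Subgroup Γ} (hΔ : Δ.FiniteIndex)
    (hT : LTower X Z S L Y) {i : ι} (hi : i ∉ S) {n : ℕ}
    {υ : Γ →* (W.H ((power ops (X i).X n).prod Y.X) ≃ₐ[W.K] W.H ((power ops (X i).X n).prod Y.X))}
    (hP : IsPowAct W (⟨(X i).X, 0⟩ : Polarized 𝒱) n Y.X (X i).act Y.act υ)
    (hfix : AlgOver χ Δ (X i)) {ε : Γ → W.K} (hε : Pot ε)
    (hs : Even (X i).X.dim → n + 1 < transRank W (X i).X ∨
      TwV W χ Δ (fun γ => ε γ * disc χ (X i) γ) Y.X Y.act)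
    (h0 : TwV W χ Δ ε Y.X Y.act) : TwV W χ Δ ε ((power ops (X i).X n).prod Y.X) υ := by
  intro j z hzj hz
  obtain ⟨hε0, Δ', hΔ', hε1⟩ := hε
  have hz' : ∀ γ ∈ Δ ⊓ Δ', υ γ z = (χ γ : W.K) ^ j • z := fun γ hγ => by
    rw [hz γ hγ.1, hε1 γ hγ.2, one_mul]
  have hτ : Y.act (g i) = 1 :=
    trivAct.1 (hT.triv (fun j hjS => h.triv_other i j fun h' => hi (h' ▸ hjS)) (h.triv_base i))
  have hD := (h.nodal i).homEqNum
  have hmid := (h.nodal i).middle
  have hG : IsGalois W χ (X i).X (X i).act := isGalois (h.nodal i).galois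
  have hPL : PLFull W (X i).X ((X i).act (g i)) := (h.nodal i).picardLefschetz
  by_cases he : Even (X i).X.dim
  · obtain ⟨s, o, R, ho, hR⟩ := fam_sb h i he
    obtain ⟨b, hb⟩ := exists_monoBasis (ops := ops) (⟨(X i).X, 0⟩ : Polarized 𝒱) s.e n
    have hinv := inv_even (P := (⟨(X i).X, 0⟩ : Polarized 𝒱)) hb hD hmid hG hP
      (h.nodal i).irreducible (h.twist i) hτ he (h.few ⟨i, he⟩) hPL (Δ := Δ ⊓ Δ') inferInstance hz'
    refine tw_step (P := (⟨(X i).X, 0⟩ : Polarized 𝒱)) hb hmid hG hP he hR ho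
      (fun γ hγ a => hfix _ _ (s.alg a) γ hγ) hzj hε0 hz hinv ?_ h0
    rcases hs he with h1 | h1
    · left
      unfold transRank at h1
      rwa [Module.finrank_eq_card_basis s.uT, Fintype.card_fin] at h1
    · right
      have e : (fun γ => ε γ * disc χ (X i) γ) =
          fun γ => ε γ * dsc (P := (⟨(X i).X, 0⟩ : Polarized 𝒱)) χ hG γ :=
        funext fun γ => by rw [disc_eq (h.nodal i).galois γ]
      rwa [e] at h1
  · obtain ⟨s⟩ := exists_SB hD
    obtain ⟨b, hb⟩ := exists_monoBasis (ops := ops) (⟨(X i).X, 0⟩ : Polarized 𝒱) s.e n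
    have hmem := mem_Tgt (P := (⟨(X i).X, 0⟩ : Polarized 𝒱)) hb hD hmid hG hP
      (h.nodal i).irreducible (h.twist i) hτ hPL.pl (fun he' => absurd he' he)
      (Δ := Δ ⊓ Δ') inferInstance hz'
    exact tw_of_Tgt (P := (⟨(X i).X, 0⟩ : Polarized 𝒱)) hmid hG hP s
      (fun γ hγ a => hfix _ _ (s.alg a) γ hγ) hzj hz hmem h0

/-- One step, Tate classes. -/
theorem tc_one (h : PLFamily χ X Z g) {Δ : Subgroup Γ} (hΔ : Δ.FiniteIndex)
    (hT : LTower X Z S L Y) {i : ι} (hi : i ∉ S) {n : ℕ}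
    {υ : Γ →* (W.H ((power ops (X i).X n).prod Y.X) ≃ₐ[W.K] W.H ((power ops (X i).X n).prod Y.X))}
    (hP : IsPowAct W (⟨(X i).X, 0⟩ : Polarized 𝒱) n Y.X (X i).act Y.act υ)
    (hfix : AlgOver χ Δ (X i))
    (hs : Even (X i).X.dim → n + 1 < transRank W (X i).X ∨
      TwV W χ Δ (disc χ (X i)) Y.X Y.act)
    (h0 : TC W χ Δ Y.X Y.act) : TC W χ Δ ((power ops (X i).X n).prod Y.X) υ := by
  intro j z hzj hz
  have hτ : Y.act (g i) = 1 :=
    trivAct.1 (hT.triv (fun j hjS => h.triv_other i j fun h' => hi (h' ▸ hjS)) (h.triv_base i))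
  have hD := (h.nodal i).homEqNum
  have hmid := (h.nodal i).middle
  have hG : IsGalois W χ (X i).X (X i).act := isGalois (h.nodal i).galois
  have hPL : PLFull W (X i).X ((X i).act (g i)) := (h.nodal i).picardLefschetz
  by_cases he : Even (X i).X.dim
  · obtain ⟨s, o, R, ho, hR⟩ := fam_sb h i he
    obtain ⟨b, hb⟩ := exists_monoBasis (ops := ops) (⟨(X i).X, 0⟩ : Polarized 𝒱) s.e n
    have hinv := inv_even (P := (⟨(X i).X, 0⟩ : Polarized 𝒱)) hb hD hmid hG hP
      (h.nodal i).irreducible (h.twist i) hτ he (h.few ⟨i, he⟩) hPL (Δ := Δ) hΔ hz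
    refine step_of_Tgt' (P := (⟨(X i).X, 0⟩ : Polarized 𝒱)) hD hmid hG hP s
      (fun γ hγ a => hfix _ _ (s.alg a) γ hγ) hzj hz ?_ h0
    refine tgt_step (P := (⟨(X i).X, 0⟩ : Polarized 𝒱)) (ε := fun _ => 1) (Δ := Δ) (j := j) hb
      hmid hG hP he hR ho (fun γ hγ a => hfix _ _ (s.alg a) γ hγ) hzj
      (fun γ hγ => by rw [one_mul]; exact hz γ hγ) hinv rfl ?_
    rcases hs he with h1 | h1
    · left
      unfold transRank at h1
      rwa [Module.finrank_eq_card_basis s.uT, Fintype.card_fin] at h1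
    · right
      have e : disc χ (X i) =
          fun γ => 1 * dsc (P := (⟨(X i).X, 0⟩ : Polarized 𝒱)) χ hG γ :=
        funext fun γ => by rw [disc_eq (h.nodal i).galois γ, one_mul]
      rwa [e] at h1
  · obtain ⟨s⟩ := exists_SB hD
    obtain ⟨b, hb⟩ := exists_monoBasis (ops := ops) (⟨(X i).X, 0⟩ : Polarized 𝒱) s.e n
    have hmem := mem_Tgt (P := (⟨(X i).X, 0⟩ : Polarized 𝒱)) hb hD hmid hG hP
      (h.nodal i).irreducible (h.twist i) hτ hPL.pl (fun he' => absurd he' he) (Δ := Δ) hΔ hz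
    exact step_of_Tgt' (P := (⟨(X i).X, 0⟩ : Polarized 𝒱)) hD hmid hG hP s
      (fun γ hγ a => hfix _ _ (s.alg a) γ hγ) hzj hz hmem h0

/-- **Twisted classes on towers.** -/
theorem tw_tower (h : PLFamily χ X Z g) {Δ : Subgroup Γ} (hΔ : Δ.FiniteIndex)
    (hY : LTower X Z S L Y) : (∀ i ∈ S, AlgOver χ Δ (X i)) → ∀ ε : Γ → W.K, Pot ε →
      (∀ I : Finset ι, (∀ i ∈ I, i ∈ L ∧ Even (X i).X.dim) →
        TwV W χ Δ (fun γ => ε γ * ∏ i ∈ I, disc χ (X i) γ) Z.X Z.act) →
      TwV W χ Δ ε Y.X Y.act := by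
  classical
  induction hY with
  | base =>
    intro _ ε _ hI
    have h1 := hI ∅ (by simp)
    simpa using h1
  | @small S L Y Y' i n hT hi hn hP ih =>
    obtain ⟨υ, h1, h2⟩ := hP
    intro hfix ε hε hI
    exact tw_one h hΔ hT hi (isPowAct h1 h2) (hfix i (Set.mem_insert _ _)) hε
      (fun he => Or.inl (hn he))
      (ih (fun a ha => hfix a (Set.mem_insert_of_mem _ ha)) ε hε hI)
  | @large S L Y Y' i n hT hi hP ih =>
    obtain ⟨υ, h1, h2⟩ := hP
    intro hfix ε hε hI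
    refine tw_one h hΔ hT hi (isPowAct h1 h2) (hfix i (Set.mem_insert _ _)) hε
      (fun he => Or.inr ?_)
      (ih (fun a ha => hfix a (Set.mem_insert_of_mem _ ha)) ε hε fun I hIL =>
        hI I fun a ha => ⟨Set.mem_insert_of_mem _ (hIL a ha).1, (hIL a ha).2⟩)
    refine ih (fun a ha => hfix a (Set.mem_insert_of_mem _ ha))
      (fun γ => ε γ * disc χ (X i) γ) (hε.mul (fam_pot h i he)) fun I hIL => ?_
    have hiI : i ∉ I := fun h => hi (hT.sub (hIL i h).1)
    have h3 := hI (insert i I) (by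
      intro a ha
      rcases Finset.mem_insert.1 ha with rfl | ha
      · exact ⟨Set.mem_insert _ _, he⟩
      · exact ⟨Set.mem_insert_of_mem _ (hIL a ha).1, (hIL a ha).2⟩)
    simp only [Finset.prod_insert hiI, ← mul_assoc] at h3
    exact h3

/-- **The classes on towers.** -/
theorem tc_tower (h : PLFamily χ X Z g) {Δ : Subgroup Γ} (hΔ : Δ.FiniteIndex)
    (hZ : TC W χ Δ Z.X Z.act) (hY : LTower X Z S L Y) : (∀ i ∈ S, AlgOver χ Δ (X i)) →
      (∀ I : Finset ι, I.Nonempty → (∀ i ∈ I, i ∈ L ∧ Even (X i).X.dim) →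
        TwV W χ Δ (fun γ => ∏ i ∈ I, disc χ (X i) γ) Z.X Z.act) → TC W χ Δ Y.X Y.act := by
  classical
  induction hY with
  | base => intro _ _; exact hZ
  | @small S L Y Y' i n hT hi hn hP ih =>
    obtain ⟨υ, h1, h2⟩ := hP
    intro hfix hI
    exact tc_one h hΔ hT hi (isPowAct h1 h2) (hfix i (Set.mem_insert _ _))
      (fun he => Or.inl (hn he)) (ih (fun a ha => hfix a (Set.mem_insert_of_mem _ ha)) hI)
  | @large S L Y Y' i n hT hi hP ih =>
    obtain ⟨υ, h1, h2⟩ := hP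
    intro hfix hI
    refine tc_one h hΔ hT hi (isPowAct h1 h2) (hfix i (Set.mem_insert _ _))
      (fun he => Or.inr ?_)
      (ih (fun a ha => hfix a (Set.mem_insert_of_mem _ ha)) fun I hne hIL =>
        hI I hne fun a ha => ⟨Set.mem_insert_of_mem _ (hIL a ha).1, (hIL a ha).2⟩)
    refine tw_tower h hΔ hT (fun a ha => hfix a (Set.mem_insert_of_mem _ ha))
      (disc χ (X i)) (fam_pot h i he) fun I hIL => ?_
    have hiI : i ∉ I := fun h => hi (hT.sub (hIL i h).1)
    have h3 := hI (insert i I) (Finset.insert_nonempty _ _) (by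
      intro a ha
      rcases Finset.mem_insert.1 ha with rfl | ha
      · exact ⟨Set.mem_insert _ _, he⟩
      · exact ⟨Set.mem_insert_of_mem _ (hIL a ha).1, (hIL a ha).2⟩)
    simp only [Finset.prod_insert hiI] at h3
    exact h3

theorem prod_pot (h : PLFamily χ X Z g) (I : Finset ι) (hI : ∀ i ∈ I, Even (X i).X.dim) :
    Pot fun γ => ∏ i ∈ I, disc χ (X i) γ := by
  classical
  induction I using Finset.induction_on with
  | empty =>
    simp only [Finset.prod_empty]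
    exact Pot.one
  | insert i I hi ih =>
    simp only [Finset.prod_insert hi]
    exact (fam_pot h i (hI i (Finset.mem_insert_self _ _))).mul
      (ih fun a ha => hI a (Finset.mem_insert_of_mem ha))

/-- From the base to the product. -/
theorem over_of_tate (h : PLFamily χ X Z g) (hY : LTower X Z S L Y) (hG : GaloisType χ Y)
    (hZ : TateConjecture χ Z) {Δ' : Subgroup Γ} (hI : IndepDiscs χ X Z S L Δ') :
    TateOver χ Δ' Y := by
  obtain ⟨Δ, hle, hΔ, hS, hAZ, hind⟩ := (indepDiscs_iff _ _ _ _ _ _).1 hI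
  refine TateOver.mono (D := ⟨χ, 0, 1⟩) hG ?_ hle
  refine tc_tower h hΔ (fun j c hcj hc => hZ j c hcj ⟨Δ, hΔ, hc⟩) hY hS fun I hne hIL => ?_
  exact twV_base (D := ⟨χ, 0, 1⟩) hZ hΔ hAZ (prod_pot h I fun i hi => (hIL i hi).2)
    (hind I hne fun i hi => hIL i hi)

/-- The subgroup over which the algebraic classes are defined. -/
def algSt (χ : Γ →* W.Kˣ) (Y : GVar W Γ) : Subgroup Γ where
  carrier := {γ | ∀ j, ∀ a ∈ algClasses W Y.X j, Y.act γ a = (χ γ : W.K) ^ j • a}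
  one_mem' := by
    intro j a _
    rw [map_one, map_one, Units.val_one, one_pow, one_smul]
    rfl
  mul_mem' := by
    intro γ γ' hγ hγ' j a ha
    rw [map_mul, AlgEquiv.mul_apply, hγ' j a ha, map_smul, hγ j a ha, smul_smul, map_mul,
      Units.val_mul, mul_pow, mul_comm]
  inv_mem' := by
    intro γ hγ j a ha
    have e1 := hγ j a ha
    have e2 : Y.act γ⁻¹ (Y.act γ a) = a := by
      rw [← AlgEquiv.mul_apply, ← map_mul, inv_mul_cancel, map_one]
      rfl
    rw [e1, map_smul] at e2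
    conv_rhs => rw [← e2]
    rw [smul_smul, ← mul_pow, map_inv χ, Units.val_inv_eq_inv_val,
      inv_mul_cancel₀ (Units.ne_zero _), one_pow, one_smul]

theorem algSt_over (χ : Γ →* W.Kˣ) (Y : GVar W Γ) : AlgOver χ (algSt χ Y) Y :=
  fun j a ha _ hγ => hγ j a ha

theorem algSt_finite {Y : GVar W Γ} (hG : GaloisType χ Y) : (algSt χ Y).FiniteIndex := by
  obtain ⟨Δ, hΔ, h⟩ := exists_algOver hG
  exact Subgroup.finiteIndex_of_le (show Δ ≤ algSt χ Y from fun γ hγ j a ha => h j a ha γ hγ)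

theorem mem_algSt_of_triv {Y : GVar W Γ} {γ : Γ} (hγ : TrivAct Y.act γ) (hχ : χ γ = 1) :
    γ ∈ algSt χ Y := by
  intro j a _
  rw [hγ a, hχ, Units.val_one, one_pow, one_smul]

theorem mem_algSt_of_nodal {Y : GVar W Γ} {γ : Γ} (hN : Nodal χ Y γ) (hχ : χ γ = 1) :
    γ ∈ algSt χ Y := by
  intro j a ha
  obtain ⟨δ, hδ, -, c, -, hgc⟩ := hN.picardLefschetz
  rw [hgc a, hχ, Units.val_one, one_pow, one_smul, ← bil_apply,
    trans_alg hδ (alg_mem ha), mul_zero, zero_smul, add_zero]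

/-- the discriminant of a reflection -/
theorem disc_nodal {Y : GVar W Γ} {γ : Γ} (hN : Nodal χ Y γ) (hχ : χ γ = 1)
    (he : Even Y.X.dim) : disc χ Y γ = -1 := by
  have hG : IsGalois W χ Y.X Y.act := isGalois hN.galois
  obtain ⟨δ, hδ, hδ0, x, hx, hgx⟩ := hN.picardLefschetz
  have hmid := hN.middle
  have hsy : ∀ a b : transcendental W Y.X, bil W Y.X a b = bil W Y.X b a := by
    intro a b
    rw [trans_symm hmid a.2 b.2, he.neg_one_pow, one_mul]
  obtain ⟨y, hy⟩ : ∃ y : transcendental W Y.X, bil W Y.X δ y ≠ 0 := by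
    by_contra hcon
    push Not at hcon
    have h1 := trans_nondeg hN.homEqNum ⟨δ, hδ⟩ hcon
    exact hδ0 (congrArg Subtype.val h1)
  have h1 := bil_act hG γ y y
  rw [hχ, Units.val_one, one_pow, one_mul, hgx, ← bil_apply] at h1
  simp only [map_add, map_smul, LinearMap.add_apply, LinearMap.smul_apply, smul_eq_mul] at h1
  rw [show bil W Y.X (y : W.H Y.X) δ = bil W Y.X δ y from hsy y ⟨δ, hδ⟩] at h1
  have h2 : (x * bil W Y.X δ y * bil W Y.X δ y) * (2 + x * bil W Y.X δ δ) = 0 := by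
    linear_combination h1
  have h3 : 2 + x * bil W Y.X δ δ = 0 :=
    (mul_eq_zero.1 h2).resolve_left (mul_ne_zero (mul_ne_zero hx hy) hy)
  rw [disc_eq hN.galois γ]
  unfold dsc
  rw [hχ, Units.val_one, one_pow, one_pow, inv_one, mul_one]
  have h4 : rhoT (isGalois hN.galois) γ = LinearMap.transvection
      (x • rform W Y.X (transcendental W Y.X) ⟨δ, hδ⟩) (⟨δ, hδ⟩ : transcendental W Y.X) := by
    apply LinearMap.ext
    intro t
    apply Subtype.ext
    rw [LinearMap.transvection.apply]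
    change Y.act γ t = (t : W.H Y.X) + (x * bil W Y.X δ t) • δ
    rw [hgx, ← bil_apply]
  rw [h4, LinearMap.transvection.det]
  change 1 + x * bil W Y.X δ δ = -1
  linear_combination h3

theorem disc_triv {Y : GVar W Γ} {γ : Γ} (hG : GaloisType χ Y) (hγ : TrivAct Y.act γ)
    (hχ : χ γ = 1) : disc χ Y γ = 1 := by
  rw [disc_eq hG γ]
  unfold dsc
  rw [hχ, Units.val_one, one_pow, one_pow, inv_one, mul_one]
  have h4 : rhoT (isGalois hG) γ = LinearMap.id := by
    apply LinearMap.ext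
    intro t
    exact Subtype.ext (hγ t)
  rw [h4, LinearMap.det_id]

/-- From the product to the base. -/
theorem tate_of_over (h : PLFamily χ X Z g) (hZG : GaloisType χ Z) (hY : LTower X Z S L Y)
    (hT : ∀ Δ' : Subgroup Γ, Δ'.FiniteIndex → IndepDiscs χ X Z S L Δ' → TateOver χ Δ' Y) :
    TateConjecture χ Z := by
  classical
  rintro j c hcj ⟨Δ, hΔ, hc⟩
  -- enlarge the group
  let Δ' : Subgroup Γ :=
    { carrier := {γ | Z.act γ c = (χ γ : W.K) ^ j • c}
      one_mem' := by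
        change Z.act 1 c = (χ 1 : W.K) ^ j • c
        rw [map_one, map_one, Units.val_one, one_pow, one_smul]
        rfl
      mul_mem' := by
        intro γ γ' hγ hγ'
        change Z.act (γ * γ') c = (χ (γ * γ') : W.K) ^ j • c
        have e1 : Z.act γ c = (χ γ : W.K) ^ j • c := hγ
        have e2 : Z.act γ' c = (χ γ' : W.K) ^ j • c := hγ'
        rw [map_mul, AlgEquiv.mul_apply, e2, map_smul, e1, smul_smul, map_mul, Units.val_mul,
          mul_pow, mul_comm]
      inv_mem' := by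
        intro γ hγ
        change Z.act γ⁻¹ c = (χ γ⁻¹ : W.K) ^ j • c
        have e1 : Z.act γ c = (χ γ : W.K) ^ j • c := hγ
        have e2 : Z.act γ⁻¹ (Z.act γ c) = c := by
          rw [← AlgEquiv.mul_apply, ← map_mul, inv_mul_cancel, map_one]
          rfl
        rw [e1, map_smul] at e2
        conv_rhs => rw [← e2]
        rw [smul_smul, ← mul_pow, map_inv χ, Units.val_inv_eq_inv_val,
          inv_mul_cancel₀ (Units.ne_zero _), one_pow, one_smul] }
  have hle : Δ ≤ Δ' := fun γ hγ => hc γ hγ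
  have hΔ' : Δ'.FiniteIndex := Subgroup.finiteIndex_of_le hle
  have hgΔ' : ∀ i, g i ∈ Δ' := fun i => by
    change Z.act (g i) c = (χ (g i) : W.K) ^ j • c
    rw [h.triv_base i c, h.twist i, Units.val_one, one_pow, one_smul]
  have hSf := LTower.finite hY
  have := hSf.to_subtype
  have hind : IndepDiscs χ X Z S L Δ' := by
    have hf1 : (⨅ i : S, algSt χ (X i)).FiniteIndex :=
      Subgroup.finiteIndex_iInf fun i => algSt_finite (h.nodal i).galois
    have hf2 : (algSt χ Z).FiniteIndex := algSt_finite hZG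
    refine (indepDiscs_iff _ _ _ _ _ _).2 ⟨Δ' ⊓ ((⨅ i : S, algSt χ (X i)) ⊓ algSt χ Z),
      inf_le_left, inferInstance, fun i hi => ?_, ?_, fun I hne hIL => ?_⟩
    · intro j a ha γ hγ
      exact (Subgroup.mem_iInf.1 hγ.2.1 ⟨i, hi⟩) j a ha
    · intro j a ha γ hγ
      exact hγ.2.2 j a ha
    · obtain ⟨i₀, hi₀⟩ := hne
      refine ⟨g i₀, ⟨hgΔ' i₀, Subgroup.mem_iInf.2 fun i => ?_, ?_⟩, ?_⟩
      · by_cases hi : (i : ι) = i₀
        · rw [hi]
          exact mem_algSt_of_nodal (h.nodal i₀) (h.twist i₀)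
        · exact mem_algSt_of_triv (h.triv_other i₀ i hi) (h.twist i₀)
      · exact mem_algSt_of_triv (h.triv_base i₀) (h.twist i₀)
      · have hev : Even (X i₀).X.dim := (hIL i₀ hi₀).2
        have e1 : ∏ i ∈ I, disc χ (X i) (g i₀) = -1 := by
          rw [← Finset.mul_prod_erase I _ hi₀, disc_nodal (h.nodal i₀) (h.twist i₀) hev,
            Finset.prod_eq_one fun i hi => disc_triv (h.nodal i).galois
              (h.triv_other i₀ i (Finset.ne_of_mem_erase hi)) (h.twist i₀), mul_one]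
        change ∏ i ∈ I, disc χ (X i) (g i₀) ≠ 1
        rw [e1]
        intro h0
        have h1 : (2 : W.K) = 0 := by linear_combination -h0
        exact two_ne_zero h1
  exact h.conv hY (tc_of_tateOver (hT Δ' hΔ' hind)) j c hcj fun γ hγ => hγ

/-- **The Tate conjecture over a given field for towers over nodal families.** -/
theorem tate_over_iff (h : PLFamily χ X Z g) (hZG : GaloisType χ Z) (hY : LTower X Z S L Y)
    (hG : GaloisType χ Y) :
    (∀ Δ' : Subgroup Γ, Δ'.FiniteIndex → IndepDiscs χ X Z S L Δ' → TateOver χ Δ' Y) ↔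
      TateConjecture χ Z :=
  ⟨fun hT => tate_of_over h hZG hY hT, fun hZ _ _ hI => over_of_tate h hY hG hZ hI⟩

end Pool.Agent.R929.NT
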