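import Pool.Agent.R929.NT.DDefs
import Pool.Agent.R929.NT.DetStep
import Pool.Agent.R929.NT.Main

/-!
# Towers with arbitrary exponents and determinant classes
-/

open CategoryTheory AlgebraicGeometry Finset Function

set_option linter.unusedSectionVars false

universe u

namespace Pool.Agent.R929.NT

open Pool.Agent.H914 Pool.Agent.H914.VarClass Pool.Agent.H914.VarClass.Obj
  Pool.Agent.H914.WeilCohomology Pool.Agent.H281R3.HT Pool.Agent.W552 Pool.Agent.TH125.Gal
  Pool.Agent.Y127 Pool.Agent.Y127.G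

variable {k : Type u} [Field k] {𝒱 : VarClass k} {ops : CycleOps 𝒱}
  {W : WeilCohomology.{u, 0} ops} {Γ : Type} [Group Γ] {χ : Γ →* W.Kˣ}

/-- determinant classes on other powers -/
theorem detc_alg {X : 𝒱.Obj} (h : DetAlg W X) {N : ℕ} (hN : N = transRank W X) {n : ℕ}
    (e : Fin N → Fin (n + 1)) (t : Fin N → transcendental W X) :
    detc W (fun a => prj ops n (fun _ => (⟨X, 0⟩ : Polarized 𝒱)) (e a)) t ∈
      algSpan W (nest ops n fun _ => (⟨X, 0⟩ : Polarized 𝒱)).X := by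
  cases N with
  | zero =>
    rw [detc_apply]
    refine Submodule.sum_mem _ fun σ _ => zsmul_mem ?_ _
    rw [mono]
    simp only [List.ofFn_zero, List.prod_nil]
    exact algSpan_one
  | succ m =>
    have h2 : detc W (powerPrj ops X m) t ∈ algSpan W (power ops X m) := by
      rw [detc_apply]
      exact h m hN t
    let f : (nest ops n fun _ => (⟨X, 0⟩ : Polarized 𝒱)).X ⟶ power ops X m :=
      nlift ops (⟨X, 0⟩ : Polarized 𝒱) m fun a => prj ops n (fun _ => (⟨X, 0⟩ : Polarized 𝒱)) (e a)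
    have h3 : W.map f (detc W (powerPrj ops X m) t) ∈
        algSpan W (nest ops n fun _ => (⟨X, 0⟩ : Polarized 𝒱)).X := algSpan_map f h2
    rw [map_detc] at h3
    have h4 : (fun p => f ≫ powerPrj ops X m p) =
        fun a => prj ops n (fun _ => (⟨X, 0⟩ : Polarized 𝒱)) (e a) :=
      funext fun a => nlift_prj _ _ _ _
    rwa [h4] at h3

/-- the converse -/
theorem detAlg_of {X : 𝒱.Obj} {N n : ℕ} (hN : N = transRank W X) (hn : N ≤ n + 1)
    (t : Module.Basis (Fin N) W.K (transcendental W X))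
    (h : detc W (fun a => prj ops n (fun _ => (⟨X, 0⟩ : Polarized 𝒱)) (Fin.castLE hn a)) t ∈
      algSpan W (nest ops n fun _ => (⟨X, 0⟩ : Polarized 𝒱)).X) : DetAlg W X := by
  intro m hm t'
  obtain rfl : N = m + 1 := by omega
  have h1 := algSpan_map (nlift ops (⟨X, 0⟩ : Polarized 𝒱) n fun p : Fin (n + 1) =>
    powerPrj ops X m (if hp : (p : ℕ) < m + 1 then ⟨p, hp⟩ else 0)) h
  rw [map_detc] at h1
  have h2 : (fun a : Fin (m + 1) => nlift ops (⟨X, 0⟩ : Polarized 𝒱) n (fun p : Fin (n + 1) =>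
      powerPrj ops X m (if hp : (p : ℕ) < m + 1 then ⟨p, hp⟩ else 0)) ≫
        prj ops n (fun _ => (⟨X, 0⟩ : Polarized 𝒱)) (Fin.castLE hn a)) = powerPrj ops X m := by
    funext a
    refine (nlift_prj _ _ _ _).trans ?_
    congr 1
    have h3 : ((Fin.castLE hn a : Fin (n + 1)) : ℕ) < m + 1 := a.2
    rw [dif_pos h3]
    rfl
  rw [h2] at h1
  have h3 := detc_det (powerPrj ops X m) t (t.constr W.K t')
  have h4 : (fun i => (t.constr W.K t') (t i)) = t' := funext fun i => t.constr_basis _ _ _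
  rw [h4] at h3
  have h5 : detc W (powerPrj ops X m) t' ∈ algSpan W (power ops X m) := by
    rw [h3]
    exact Submodule.smul_mem _ _ h1
  rw [detc_apply] at h5
  exact h5

/-- the point class of a product with a power -/
def HasPt (W : WeilCohomology.{u, 0} ops) (Y : 𝒱.Obj) : Prop :=
  ∃ a ∈ algSpan W Y, a ∈ W.gr Y (2 * Y.dim) ∧ W.tr Y a ≠ 0

theorem hasPt_gr {Y : 𝒱.Obj} {a : W.H Y} (ha : a ∈ algSpan W Y) (h : W.tr Y a ≠ 0) :
    HasPt W Y := by
  by_contra hcon
  apply h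
  induction ha using Submodule.span_induction with
  | mem x hx =>
    obtain ⟨j, hj⟩ := Set.mem_iUnion.1 hx
    by_contra h0
    have hx' : x ∈ W.gr Y (2 * j) := by
      obtain ⟨z, hz, rfl⟩ := hj
      exact W.cl_mem hz
    have hj' : j = Y.dim := by
      by_contra hne
      exact h0 (W.tr_eq_zero hx' (by omega))
    subst hj'
    exact hcon ⟨x, alg_mem hj, hx', h0⟩
  | zero => rw [map_zero]
  | add x y _ _ hx hy =>
    rw [map_add]
    by_contra h0
    by_cases hx0 : W.tr Y x = 0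
    · by_cases hy0 : W.tr Y y = 0
      · exact h0 (by rw [hx0, hy0, add_zero])
      · exact hy0 (hy hy0)
    · exact hx0 (hx hx0)
  | smul r x _ hx =>
    rw [map_smul]
    by_cases hx0 : W.tr Y x = 0
    · rw [hx0, smul_zero]
    · rw [hx hx0, smul_zero]

theorem alg_of_fst {A Y : 𝒱.Obj} {D : W.H A} (hpt : HasPt W Y)
    (h : W.map (fst A Y) D ∈ algSpan W (A.prod Y)) : D ∈ algSpan W A := by
  obtain ⟨a, ha, hagr, ha0⟩ := hpt
  have h2 := algSpan_push (fst A Y) (algSpan_mul h (algSpan_map (snd A Y) ha))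
  rw [push_fst _ hagr] at h2
  have h3 := Submodule.smul_mem _ (W.tr Y a)⁻¹ h2
  rwa [smul_smul, inv_mul_cancel₀ ha0, one_smul] at h3

/-- the point class of the base -/
theorem hasPt_base {Z : GVar W Γ} (hG : GaloisType χ Z) (h1 : (1 : W.H Z.X) ≠ 0)
    (hT : TateConjecture χ Z) : HasPt W Z.X := by
  obtain ⟨b, hb⟩ : ∃ b, W.tr Z.X b ≠ 0 := by
    by_contra hcon
    push Not at hcon
    exact h1 (W.nondeg 1 fun b => hcon _)
  set a := proj (W.isInternal Z.X) (2 * Z.X.dim) b with ha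
  have hagr : a ∈ W.gr Z.X (2 * Z.X.dim) := proj_mem _ _ _
  have htr : ∀ b, W.tr Z.X (proj (W.isInternal Z.X) (2 * Z.X.dim) b) = W.tr Z.X b := by
    intro b
    refine gr_induction (W.isInternal Z.X) (p := fun b =>
      W.tr Z.X (proj (W.isInternal Z.X) (2 * Z.X.dim) b) = W.tr Z.X b) ?_ ?_ b
    · intro j b hb
      by_cases hj : j = 2 * Z.X.dim
      · subst hj
        rw [proj_same _ hb]
      · rw [proj_ne _ hb hj, map_zero, W.tr_eq_zero hb hj]
    · intro x y hx hy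
      rw [map_add, map_add, hx, hy, map_add]
  have ha0 : W.tr Z.X a ≠ 0 := by rw [ha, htr]; exact hb
  refine hasPt_gr (a := a) (Submodule.span_mono (Set.subset_iUnion _ _)
    (hT Z.X.dim a hagr ⟨⊤, inferInstance, fun g _ => ?_⟩)) ha0
  rw [← sub_eq_zero]
  have hd : Z.act g a - (χ g : W.K) ^ Z.X.dim • a ∈ W.gr Z.X (2 * Z.X.dim) :=
    Submodule.sub_mem _ (hG.gr_mem g _ a hagr) (Submodule.smul_mem _ _ hagr)
  have hd0 : W.tr Z.X (Z.act g a - (χ g : W.K) ^ Z.X.dim • a) = 0 := by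
    rw [map_sub, hG.tr_act, map_smul, smul_eq_mul, sub_self]
  refine W.nondeg _ fun b => ?_
  refine gr_induction (W.isInternal Z.X) (p := fun b =>
    W.tr Z.X ((Z.act g a - (χ g : W.K) ^ Z.X.dim • a) * b) = 0) ?_ ?_ b
  · intro j b hb
    by_cases hj : j = 0
    · subst hj
      rw [W.gr_zero] at hb
      obtain ⟨r, rfl⟩ := Submodule.mem_span_singleton.1 hb
      rw [mul_smul_comm, mul_one, map_smul, hd0, smul_zero]
    · exact W.tr_eq_zero (W.mul_mem hd hb) (by omega)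
  · intro x y hx hy
    rw [mul_add, map_add, hx, hy, add_zero]

/-- the point class of a product with a power -/
theorem hasPt_step {X : 𝒱.Obj} (hD : HomEqNum W X) (h1 : (1 : W.H X) ≠ 0) (n : ℕ) {Y : 𝒱.Obj}
    (hY : HasPt W Y) : HasPt W ((power ops X n).prod Y) := by
  obtain ⟨a, ha, ha0⟩ := exists_pt hD h1
  obtain ⟨b, hb, -, hb0⟩ := hY
  refine hasPt_gr (a := W.map (fst _ Y) (mono (prj ops n fun _ => (⟨X, 0⟩ : Polarized 𝒱))
    fun _ => a) * W.map (snd _ Y) b) ?_ ?_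
  · exact algSpan_mul (algSpan_map _ (mono_alg _ fun _ => alg_mem ha)) (algSpan_map _ hb)
  · have h2 := W.tr_prod (X := power ops X n) (Y := Y)
      (mono (prj ops n fun _ => (⟨X, 0⟩ : Polarized 𝒱)) fun _ => a) b
    have h3 := tr_mono (W := W) (⟨X, 0⟩ : Polarized 𝒱) a n
    have h4 : W.tr (power ops X n) (mono (prj ops n fun _ => (⟨X, 0⟩ : Polarized 𝒱))
      fun _ => a) ≠ 0 := by
      intro h5
      exact pow_ne_zero (n + 1) ha0 (h3.symm.trans h5)
    intro h5
    exact mul_ne_zero h4 hb0 (h2.symm.trans h5)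

variable {ι : Type} {X : ι → GVar W Γ} {Z : GVar W Γ} {g : ι → Γ} {S L : Set ι} {Y : GVar W Γ}

theorem DTower.toL (h : DTower X Z S L Y) : LTower X Z S L Y := by
  induction h with
  | base => exact LTower.base
  | small i n _ hi hn hP ih => exact LTower.small i n ih hi hn hP
  | large i n _ hi _ _ hP ih => exact LTower.large i n ih hi hP

/-- One step with the determinant class. -/
theorem tate_one (h : PLFamily χ X Z g) (hT : LTower X Z S L Y) {i : ι} (hi : i ∉ S) {n : ℕ}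
    {υ : Γ →* (W.H ((power ops (X i).X n).prod Y.X) ≃ₐ[W.K] W.H ((power ops (X i).X n).prod Y.X))}
    (hP : IsPowAct W (⟨(X i).X, 0⟩ : Polarized 𝒱) n Y.X (X i).act Y.act υ)
    (he : Even (X i).X.dim) (hdet : DetAlg W (X i).X) (h0 : TateConj W χ Y.X Y.act) :
    TateConj W χ ((power ops (X i).X n).prod Y.X) υ := by
  rintro j z hzj ⟨Δ, hΔ, hz⟩
  have hτ : Y.act (g i) = 1 :=
    trivAct.1 (hT.triv (fun j hjS => h.triv_other i j fun h' => hi (h' ▸ hjS)) (h.triv_base i))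
  have hD := (h.nodal i).homEqNum
  have hmid := (h.nodal i).middle
  have hG : IsGalois W χ (X i).X (X i).act := isGalois (h.nodal i).galois
  have hPL : PLFull W (X i).X ((X i).act (g i)) := (h.nodal i).picardLefschetz
  obtain ⟨s, o, R, ho, hR⟩ := fam_sb h i he
  obtain ⟨b, hb⟩ := exists_monoBasis (ops := ops) (⟨(X i).X, 0⟩ : Polarized 𝒱) s.e n
  have hinv := inv_even (P := (⟨(X i).X, 0⟩ : Polarized 𝒱)) hb hD hmid hG hP
    (h.nodal i).irreducible (h.twist i) hτ he (h.few ⟨i, he⟩) hPL (Δ := Δ) hΔ hz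
  obtain ⟨-, Δ1, hΔ1, hd⟩ := dsc_pot (P := (⟨(X i).X, 0⟩ : Polarized 𝒱)) hG he hR
  have hfs := fixS_finite (P := (⟨(X i).X, 0⟩ : Polarized 𝒱)) hG s
  have hNT : s.NT = transRank W (X i).X := by
    unfold transRank
    rw [Module.finrank_eq_card_basis s.uT, Fintype.card_fin]
  exact step_of_TgtD (P := (⟨(X i).X, 0⟩ : Polarized 𝒱)) hD hmid he hG hP s
    (fun e => detc_alg hdet hNT e s.bT) (Δ := Δ ⊓ (Δ1 ⊓ fixS (P := (⟨(X i).X, 0⟩ : Polarized 𝒱)) χ (X i).act s))
    (fun γ hγ => hγ.2.2) (fun γ hγ => hd γ hγ.2.1) hzj (fun γ hγ => hz γ hγ.1)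
    (tgtD_of_inv (P := (⟨(X i).X, 0⟩ : Polarized 𝒱)) hb hmid he hR hinv)
    (fun j c hcj hc => h0 j c hcj ⟨_, inferInstance, hc⟩)

/-- The determinant class is algebraic if the Tate conjecture holds for a large power. -/
theorem det_of_tate (h : PLFamily χ X Z g) {i : ι} {n : ℕ}
    {υ : Γ →* (W.H ((power ops (X i).X n).prod Y.X) ≃ₐ[W.K] W.H ((power ops (X i).X n).prod Y.X))}
    (hP : IsPowAct W (⟨(X i).X, 0⟩ : Polarized 𝒱) n Y.X (X i).act Y.act υ)
    (he : Even (X i).X.dim) (hn : transRank W (X i).X ≤ n + 1) (hpt : HasPt W Y.X)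
    (hT : TateConj W χ ((power ops (X i).X n).prod Y.X) υ) : DetAlg W (X i).X := by
  have hmid := (h.nodal i).middle
  have hG : IsGalois W χ (X i).X (X i).act := isGalois (h.nodal i).galois
  obtain ⟨s, o, R, ho, hR⟩ := fam_sb h i he
  obtain ⟨-, Δ1, hΔ1, hd⟩ := dsc_pot (P := (⟨(X i).X, 0⟩ : Polarized 𝒱)) hG he hR
  have hfs := fixS_finite (P := (⟨(X i).X, 0⟩ : Polarized 𝒱)) hG s
  have hNT : s.NT = transRank W (X i).X := by
    unfold transRank
    rw [Module.finrank_eq_card_basis s.uT, Fintype.card_fin]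
  have hn' : s.NT ≤ n + 1 := by rw [hNT]; exact hn
  have hq : Mqd s (prj ops n fun _ => (⟨(X i).X, 0⟩ : Polarized 𝒱)) _ _ :=
    Mqd.det (s := s) (π := prj ops n fun _ => (⟨(X i).X, 0⟩ : Polarized 𝒱)) (Fin.castLE hn')
  refine detAlg_of hNT hn' s.bT ?_
  have h1 := hT _ (W.map (fst _ Y.X) (detc W (fun a => prj ops n
    (fun _ => (⟨(X i).X, 0⟩ : Polarized 𝒱)) (Fin.castLE hn' a)) s.bT))
    (W.map_mem _ (hq.gr hmid he)) ⟨Δ1 ⊓ fixS (P := (⟨(X i).X, 0⟩ : Polarized 𝒱)) χ (X i).act s,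
      inferInstance, fun γ hγ =>
      mqd_act (P := (⟨(X i).X, 0⟩ : Polarized 𝒱)) hmid hG hP hγ.2 (hd γ hγ.1) hq⟩
  exact alg_of_fst (A := power ops (X i).X n) hpt (Submodule.span_mono (Set.subset_iUnion _ _) h1)

/-- **The Tate conjecture for towers with arbitrary exponents.** -/
theorem tate_det_iff (h : PLFamily χ X Z g) (hG : GaloisType χ Z) (h1 : (1 : W.H Z.X) ≠ 0)
    (hY : DTower X Z S L Y) :
    TateConjecture χ Y ↔ TateConjecture χ Z ∧ ∀ i ∈ L, DetAlg W (X i).X := by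
  have hne : ∀ i, (1 : W.H (X i).X) ≠ 0 := by
    intro i h3
    obtain ⟨δ, -, hδ0, -⟩ := (h.nodal i).picardLefschetz
    apply hδ0
    rw [← one_mul δ, h3, zero_mul]
  have key : (TateConjecture χ Y ↔ TateConjecture χ Z ∧ ∀ i ∈ L, DetAlg W (X i).X) ∧
      (TateConjecture χ Z → HasPt W Y.X) := by
    induction hY with
    | base => exact ⟨⟨fun h => ⟨h, by simp⟩, fun h => h.1⟩, hasPt_base hG h1⟩
    | @small S L Y Y' i n hT hi hn hP ih =>
      obtain ⟨υ, e1, e2⟩ := hP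
      have hPA := isPowAct e1 e2
      have hτ : Y.act (g i) = 1 :=
        trivAct.1 (hT.toL.triv (fun j hjS => h.triv_other i j fun h' => hi (h' ▸ hjS))
          (h.triv_base i))
      have hPL : PLFull W (X i).X ((X i).act (g i)) := (h.nodal i).picardLefschetz
      refine ⟨⟨fun hT' => ih.1.1 (tate_conv (P := (⟨(X i).X, 0⟩ : Polarized 𝒱))
          (h.nodal i).homEqNum (hne i) hPA hT'), fun h0 => ?_⟩,
        fun hZ => hasPt_step (h.nodal i).homEqNum (hne i) n (ih.2 hZ)⟩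
      exact tate_step (P := (⟨(X i).X, 0⟩ : Polarized 𝒱)) (h.nodal i).homEqNum
        (h.nodal i).middle (isGalois (h.nodal i).galois) hPA (h.nodal i).irreducible (h.twist i)
        hτ hPL.pl (fun he => ⟨h.few ⟨i, he⟩, hn he⟩) (ih.1.2 h0)
    | @large S L Y Y' i n hT hi he hn hP ih =>
      obtain ⟨υ, e1, e2⟩ := hP
      have hPA := isPowAct e1 e2
      refine ⟨⟨fun hT' => ?_, fun h0 => ?_⟩,
        fun hZ => hasPt_step (h.nodal i).homEqNum (hne i) n (ih.2 hZ)⟩
      · have h3 := ih.1.1 (tate_conv (P := (⟨(X i).X, 0⟩ : Polarized 𝒱))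
          (h.nodal i).homEqNum (hne i) hPA hT')
        refine ⟨h3.1, fun a ha => ?_⟩
        rcases ha with rfl | ha
        · exact det_of_tate h hPA he hn (ih.2 h3.1) hT'
        · exact h3.2 a ha
      · exact tate_one h hT.toL hi hPA he (h0.2 i (Set.mem_insert _ _))
          (ih.1.2 ⟨h0.1, fun a ha => h0.2 a (Set.mem_insert_of_mem _ ha)⟩)
  exact key.1

end Pool.Agent.R929.NT
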