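import Pool.Agent.R929.NT.FftM
import Pool.Agent.Y127.SOTwr

/-!
# The determinant class
-/

open CategoryTheory AlgebraicGeometry Finset Function

set_option linter.unusedSectionVars false

universe u v w

namespace Pool.Agent.R929.NT

open Pool.Agent.H914 Pool.Agent.H914.VarClass Pool.Agent.H914.VarClass.Obj
  Pool.Agent.H914.WeilCohomology Pool.Agent.H281R3.HT Pool.Agent.W552 Pool.Agent.TH125.Gal
  Pool.Agent.Y127

variable {k : Type u} [Field k] {𝒱 : VarClass k} {ops : CycleOps 𝒱}
  {W : WeilCohomology.{u, v} ops}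

/-- the morphism to a power given by its components -/
noncomputable def nlift (ops : CycleOps 𝒱) {Y : 𝒱.Obj} (P : Polarized 𝒱) :
    (n : ℕ) → (Fin (n + 1) → (Y ⟶ P.X)) → (Y ⟶ (nest ops n fun _ => P).X)
  | 0, f => f 0
  | n + 1, f => Obj.lift (f 0) (nlift ops P n fun i => f i.succ)

theorem nlift_prj {Y : 𝒱.Obj} (P : Polarized 𝒱) : ∀ (n : ℕ) (f : Fin (n + 1) → (Y ⟶ P.X))
    (a : Fin (n + 1)), nlift ops P n f ≫ prj ops n (fun _ => P) a = f a := by
  intro n
  induction n with
  | zero =>
    intro f a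
    obtain rfl : a = 0 := Fin.eq_zero a
    exact Category.comp_id _
  | succ n ih =>
    intro f a
    induction a using Fin.cases with
    | zero => exact Obj.lift_fst _ _
    | succ a =>
      have h1 : Obj.lift (f 0) (nlift ops P n fun i => f i.succ) ≫
          (snd P.X (nest ops n fun _ => P).X ≫ prj ops n (fun _ => P) a) = f a.succ := by
        rw [← Category.assoc, Obj.lift_snd]
        exact ih _ _
      exact h1

section alt

variable {X Y : 𝒱.Obj} {N : ℕ}

/-- monomials in transcendental classes as a multilinear map -/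
noncomputable def mlin (W : WeilCohomology.{u, v} ops) (π : Fin N → (Y ⟶ X)) :
    MultilinearMap W.K (fun _ : Fin N => transcendental W X) (W.H Y) :=
  (MultilinearMap.mkPiAlgebraFin W.K N (W.H Y)).compLinearMap fun p =>
    (W.map (π p)).toLinearMap ∘ₗ (transcendental W X).subtype

theorem mlin_apply (π : Fin N → (Y ⟶ X)) (v : Fin N → transcendental W X) :
    mlin W π v = mono π fun p => (v p : W.H X) := by
  rw [mlin, MultilinearMap.compLinearMap_apply, MultilinearMap.mkPiAlgebraFin_apply]
  rfl

/-- alternating sums of monomials -/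
noncomputable def detc (W : WeilCohomology.{u, v} ops) (π : Fin N → (Y ⟶ X)) :
    (transcendental W X) [⋀^Fin N]→ₗ[W.K] (W.H Y) := MultilinearMap.alternatization (mlin W π)

theorem detc_apply (π : Fin N → (Y ⟶ X)) (v : Fin N → transcendental W X) :
    detc W π v = ∑ σ : Equiv.Perm (Fin N), (Equiv.Perm.sign σ : ℤ) •
      mono π fun p => (v (σ p) : W.H X) := by
  rw [detc, MultilinearMap.alternatization_apply]
  refine Finset.sum_congr rfl fun σ _ => ?_
  rw [MultilinearMap.domDomCongr_apply, mlin_apply]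
  rfl

theorem map_detc {Y' : 𝒱.Obj} (f : Y' ⟶ Y) (π : Fin N → (Y ⟶ X))
    (v : Fin N → transcendental W X) : W.map f (detc W π v) = detc W (fun p => f ≫ π p) v := by
  rw [detc_apply, detc_apply, map_sum]
  refine Finset.sum_congr rfl fun σ _ => ?_
  rw [map_zsmul, map_mono]

/-- the action on the determinant -/
theorem detc_det (π : Fin N → (Y ⟶ X)) (t : Module.Basis (Fin N) W.K (transcendental W X))
    (f : transcendental W X →ₗ[W.K] transcendental W X) :
    detc W π (fun i => f (t i)) = LinearMap.det f • detc W π t := by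
  rw [← sub_eq_zero]
  refine (Module.forall_dual_apply_eq_zero_iff W.K _).1 fun φ => ?_
  have h1 := AlternatingMap.eq_smul_basis_det (e := t) (φ.compAlternatingMap (detc W π))
  have h2 := congrArg (fun A : (transcendental W X) [⋀^Fin N]→ₗ[W.K] W.K =>
    A (fun i => f (t i))) h1
  have h3 : t.det (fun i => f (t i)) = LinearMap.det f := by
    have h4 := t.det_comp f t
    rw [t.det_self, mul_one] at h4
    exact h4
  simp only [AlternatingMap.smul_apply, h3, LinearMap.compAlternatingMap_apply,
    smul_eq_mul] at h2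
  rw [map_sub, map_smul, h2, smul_eq_mul, mul_comm, sub_self]

end alt

/-- Products of algebraic classes on factors, diagonal classes and determinant classes. -/
inductive Mqd {X Y : 𝒱.Obj} (s : SB W X) {N : ℕ} (π : Fin N → (Y ⟶ X)) : ℕ → W.H Y → Prop
  | of {S i c} : Mq s π S i c → Mqd s π i c
  | det (e : Fin s.NT → Fin N) :
      Mqd s π (X.dim / 2 * s.NT) (detc W (fun a => π (e a)) s.bT)
  | mul {i j c c'} : Mqd s π i c → Mqd s π j c' → Mqd s π (i + j) (c * c')

section

variable {X Y : 𝒱.Obj} {s : SB W X} {N : ℕ} {π : Fin N → (Y ⟶ X)}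

theorem detc_gr (hmid : transcendental W X ≤ W.gr X X.dim) {M : ℕ} (π : Fin M → (Y ⟶ X))
    (v : Fin M → transcendental W X) : detc W π v ∈ W.gr Y (M * X.dim) := by
  rw [detc_apply]
  refine Submodule.sum_mem _ fun σ _ => zsmul_mem ?_ _
  have h1 := mono_gr π (fun p => (v (σ p) : W.H X)) (fun _ => X.dim) fun p => hmid (v (σ p)).2
  rwa [Finset.sum_const, Finset.card_univ, Fintype.card_fin, smul_eq_mul] at h1

theorem Mqd.gr (hmid : transcendental W X ≤ W.gr X X.dim) (heven : Even X.dim) {i : ℕ}
    {c : W.H Y} (h : Mqd s π i c) : c ∈ W.gr Y (2 * i) := by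
  induction h with
  | of h => exact h.gr hmid
  | det e =>
    have h1 := detc_gr (W := W) hmid (fun a => π (e a)) s.bT
    obtain ⟨d, hd⟩ := heven
    have h2 : 2 * (X.dim / 2 * s.NT) = s.NT * X.dim := by
      have : X.dim / 2 = d := by omega
      rw [this, hd]
      ring
    rw [h2]
    exact h1
  | mul _ _ ih ih' =>
    rw [mul_add]
    exact W.mul_mem ih ih'

theorem Mqd.alg (hDX : HomEqNum W X) (hmid : transcendental W X ≤ W.gr X X.dim)
    (hdet : ∀ e : Fin s.NT → Fin N, detc W (fun a => π (e a)) s.bT ∈ algSpan W Y)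
    {i : ℕ} {c : W.H Y} (h : Mqd s π i c) : c ∈ algSpan W Y := by
  induction h with
  | of h => exact h.alg hDX hmid
  | det e => exact hdet e
  | mul _ _ ih ih' => exact algSpan_mul ih ih'

/-- a commutative subalgebra -/
@[reducible] noncomputable def commOf {A : Subalgebra W.K (W.H Y)}
    (hA : ∀ x ∈ A, ∀ y ∈ A, x * y = y * x) : CommRing A :=
  { (inferInstance : Ring A) with
    mul_comm := fun a b => Subtype.ext (hA a a.2 b b.2) }

/-- finite products in a commutative subalgebra -/
theorem Mqd.prod {A : Subalgebra W.K (W.H Y)} (hA : ∀ x ∈ A, ∀ y ∈ A, x * y = y * x)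
    {L : Type*} (S : Finset L) (y : L → A)
    (h : ∀ l ∈ S, ∃ i, Mqd s π i (y l : W.H Y)) :
    ∃ i, Mqd s π i ((@Finset.prod L A (@CommRing.toCommMonoid _ (commOf hA)) S y : A) :
      W.H Y) := by
  classical
  letI : CommRing A := commOf hA
  change ∃ i, Mqd s π i ((∏ l ∈ S, y l : A) : W.H Y)
  induction S using Finset.induction_on with
  | empty =>
    refine ⟨0, ?_⟩
    rw [Finset.prod_empty]
    exact Mqd.of Mq.one
  | insert l S hl ih =>
    obtain ⟨i, hi⟩ := ih fun l' hl' => h l' (Finset.mem_insert_of_mem hl')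
    obtain ⟨j, hj⟩ := h l (Finset.mem_insert_self _ _)
    refine ⟨j + i, ?_⟩
    rw [Finset.prod_insert hl]
    exact Mqd.mul hj hi

end

end Pool.Agent.R929.NT
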