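import Pool.Agent.R929.NT.DetCls

/-!
# Sums over the free positions with a determinant
-/

open CategoryTheory AlgebraicGeometry Finset Function

set_option linter.unusedSectionVars false

universe u v w

namespace Pool.Agent.R929.NT

open Pool.Agent.H914 Pool.Agent.H914.VarClass Pool.Agent.H914.VarClass.Obj
  Pool.Agent.H914.WeilCohomology Pool.Agent.H281R3.HT Pool.Agent.W552 Pool.Agent.TH125.Gal
  Pool.Agent.Y127

section comm

variable {K : Type*} [Field K] {A : Type*} [CommRing A] [Algebra K A]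

/-- sums over functions of products over pairs -/
theorem sum_pairs {J : Type*} [Fintype J] [DecidableEq J] (m : ℕ) (g : Fin m → J → J → A) :
    ∑ r : Fin m × Fin 2 → J, ∏ l, g l (r (l, 0)) (r (l, 1)) =
      ∏ l, ∑ a : Fin 2 → J, g l (a 0) (a 1) := by
  classical
  rw [Finset.prod_univ_sum, Fintype.piFinset_univ]
  exact Fintype.sum_equiv (Equiv.curry _ _ _) _ _ fun r => rfl

/-- sums over functions of products with a determinant -/
theorem sum_det {N : ℕ} (g : Fin N → Fin N → A) :
    ∑ r : Fin N → Fin N, (Matrix.of fun a b : Fin N => if r a = b then (1 : K) else 0).det •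
      ∏ a, g a (r a) = ∑ σ : Equiv.Perm (Fin N), (Equiv.Perm.sign σ : ℤ) • ∏ a, g a (σ a) := by
  classical
  have h1 : ∀ r : Fin N → Fin N,
      (Matrix.of fun a b : Fin N => if r a = b then (1 : K) else 0).det • ∏ a, g a (r a) =
      ∑ σ : Equiv.Perm (Fin N), if r = σ then (Equiv.Perm.sign σ : ℤ) • ∏ a, g a (σ a)
        else 0 := by
    intro r
    rw [Matrix.det_apply', Finset.sum_smul, ← Equiv.sum_comp (Equiv.inv (Equiv.Perm (Fin N)))]
    refine Finset.sum_congr rfl fun σ _ => ?_
    have h2 : (∏ i, (Matrix.of fun a b : Fin N => if r a = b then (1 : K) else 0)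
        ((Equiv.inv (Equiv.Perm (Fin N)) σ) i) i) = if r = σ then 1 else 0 := by
      by_cases h : r = σ
      · rw [if_pos h]
        refine Finset.prod_eq_one fun i _ => ?_
        rw [Matrix.of_apply, h, if_pos]
        exact σ.apply_symm_apply i
      · rw [if_neg h]
        obtain ⟨i, hi⟩ := Function.ne_iff.1 h
        refine Finset.prod_eq_zero (Finset.mem_univ (σ i)) ?_
        rw [Matrix.of_apply, if_neg]
        change r (σ.symm (σ i)) ≠ σ i
        rw [Equiv.symm_apply_apply]
        exact hi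
    rw [h2]
    by_cases h : r = σ
    · rw [if_pos h, if_pos h, mul_one]
      have h3 : Equiv.Perm.sign ((Equiv.inv (Equiv.Perm (Fin N))) σ) = Equiv.Perm.sign σ :=
        Equiv.Perm.sign_inv σ
      rw [h3, h]
      norm_cast
    · rw [if_neg h, if_neg h, mul_zero, zero_smul]
  rw [Finset.sum_congr rfl fun r _ => h1 r, Finset.sum_comm]
  refine Finset.sum_congr rfl fun σ _ => ?_
  rw [Finset.sum_ite_eq' Finset.univ (σ : Fin N → Fin N)]
  rw [if_pos (Finset.mem_univ _)]

/-- the factorization of the sum over the free positions -/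
theorem sum_free {JC : Type} {N n m : ℕ} {c : Fin n → Option JC}
    (e : (Fin m × Fin 2) ⊕ Fin N ≃ Free c) (E : Fin n → JC ⊕ Fin N → A)
    (Q : Fin N → Fin N → K) :
    ∑ r : Free c → Fin N, (detAt (K := K) (fun a => e (Sum.inr a)) r *
      ∏ l, Q (r (e (Sum.inl (l, 0)))) (r (e (Sum.inl (l, 1))))) • ∏ p, E p (comb c r p) =
    (∏ l, ∑ a : Fin 2 → Fin N, Q (a 0) (a 1) • (E (e (Sum.inl (l, 0))).1 (Sum.inr (a 0)) *
      E (e (Sum.inl (l, 1))).1 (Sum.inr (a 1)))) *
    (∑ σ : Equiv.Perm (Fin N), (Equiv.Perm.sign σ : ℤ) •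
      ∏ a, E (e (Sum.inr a)).1 (Sum.inr (σ a))) *
    ∏ p : {p // ¬ c p = none}, (c p.1).elim 1 fun i => E p.1 (Sum.inl i) := by
  classical
  have h1 : ∀ r : Free c → Fin N, ∏ p, E p (comb c r p) =
      ((∏ l, (E (e (Sum.inl (l, 0))).1 (Sum.inr (r (e (Sum.inl (l, 0))))) *
        E (e (Sum.inl (l, 1))).1 (Sum.inr (r (e (Sum.inl (l, 1))))))) *
      ∏ a, E (e (Sum.inr a)).1 (Sum.inr (r (e (Sum.inr a))))) *
      ∏ p : {p // ¬ c p = none}, (c p.1).elim 1 fun i => E p.1 (Sum.inl i) := by
    intro r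
    rw [← Fintype.prod_subtype_mul_prod_subtype (fun p => c p = none)]
    congr 1
    · have h2 : ∏ p : {p // c p = none}, E p.1 (comb c r p.1) =
          ∏ x : (Fin m × Fin 2) ⊕ Fin N, E (e x).1 (Sum.inr (r (e x))) := by
        rw [← Equiv.prod_comp e]
        refine Finset.prod_congr rfl fun x _ => ?_
        rw [comb_none]
      rw [h2, Fintype.prod_sum_type, Fintype.prod_prod_type]
      congr 1
      refine Finset.prod_congr rfl fun l _ => ?_
      rw [Fin.prod_univ_two]
    · refine Finset.prod_congr rfl fun p _ => ?_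
      obtain ⟨i, hi⟩ := Option.ne_none_iff_exists'.1 p.2
      rw [comb_some r hi, hi]
      rfl
  rw [Finset.sum_congr rfl fun r _ => by rw [h1 r]]
  -- change of the index set
  let eq : ((Fin m × Fin 2 → Fin N) × (Fin N → Fin N)) ≃ (Free c → Fin N) :=
    (Equiv.sumArrowEquivProdArrow _ _ _).symm.trans (Equiv.arrowCongr e (Equiv.refl _))
  have heq1 : ∀ x p, eq x (e (Sum.inl p)) = x.1 p := by
    intro x p
    have h : eq x (e (Sum.inl p)) = (Equiv.sumArrowEquivProdArrow (Fin m × Fin 2) (Fin N)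
      (Fin N)).symm x (e.symm (e (Sum.inl p))) := rfl
    rw [h, e.symm_apply_apply]
    rfl
  have heq2 : ∀ x p, eq x (e (Sum.inr p)) = x.2 p := by
    intro x p
    have h : eq x (e (Sum.inr p)) = (Equiv.sumArrowEquivProdArrow (Fin m × Fin 2) (Fin N)
      (Fin N)).symm x (e.symm (e (Sum.inr p))) := rfl
    rw [h, e.symm_apply_apply]
    rfl
  rw [← Equiv.sum_comp eq, Fintype.sum_prod_type]
  simp only [heq1, heq2, detAt]
  have key : ∀ (D q : K) (P R F : A), (D * q) • (P * R * F) = (q • P) * (D • R) * F := by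
    intro D q P R F
    rw [smul_mul_smul_comm, smul_mul_assoc, mul_comm D]
  rw [Finset.sum_congr rfl fun x _ => Finset.sum_congr rfl fun y _ => key _ _ _ _ _,
    Finset.sum_congr rfl fun x _ => (Finset.sum_mul _ _ _).symm, ← Finset.sum_mul]
  congr 1
  rw [← Finset.sum_mul_sum]
  refine congrArg₂ (· * ·) ?_
    (sum_det (K := K) fun a i => E (e (Sum.inr a)).1 (Sum.inr i))
  rw [← sum_pairs m fun l i j => Q i j • (E (e (Sum.inl (l, 0))).1 (Sum.inr i) *
      E (e (Sum.inl (l, 1))).1 (Sum.inr j))]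
  refine Finset.sum_congr rfl fun x _ => ?_
  rw [Finset.prod_smul]

end comm

end Pool.Agent.R929.NT
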