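import Pool.Agent.R929.NT.DetSum

/-!
# Sums over the free positions with a determinant: classes
-/

open CategoryTheory AlgebraicGeometry Finset Function

set_option linter.unusedSectionVars false

universe u v w

namespace Pool.Agent.R929.NT

open Pool.Agent.H914 Pool.Agent.H914.VarClass Pool.Agent.H914.VarClass.Obj
  Pool.Agent.H914.WeilCohomology Pool.Agent.H281R3.HT Pool.Agent.W552 Pool.Agent.TH125.Gal
  Pool.Agent.Y127

variable {k : Type u} [Field k] {𝒱 : VarClass k} {ops : CycleOps 𝒱}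
  {W : WeilCohomology.{u, v} ops} {X Y : 𝒱.Obj} {s : SB W X} {N : ℕ} {π : Fin N → (Y ⟶ X)}

/-- the subalgebra generated by the classes on the factors -/
noncomputable def facAlg (s : SB W X) (π : Fin N → (Y ⟶ X)) : Subalgebra W.K (W.H Y) :=
  Algebra.adjoin W.K {x | ∃ p i, x = W.map (π p) (s.e i)}

theorem facAlg_comm (hmid : transcendental W X ≤ W.gr X X.dim) (heven : Even X.dim) :
    ∀ x ∈ facAlg s π, ∀ y ∈ facAlg s π, x * y = y * x := by
  have hdg : ∀ i, Even (s.dg i) := by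
    rintro (i | i)
    · exact even_two_mul _
    · exact heven
  have h := Algebra.adjoinCommRingOfComm W.K (A := W.H Y)
    (s := {x | ∃ p i, x = W.map (π p) (s.e i)}) (by
      rintro _ ⟨p, i, rfl⟩ _ ⟨q, j, rfl⟩
      rw [W.comm (W.map_mem _ (s.e_gr hmid i)) (W.map_mem _ (s.e_gr hmid j)),
        ((hdg i).mul_right _).neg_one_pow, one_smul])
  intro x hx y hy
  have h1 : ∀ a ∈ {x | ∃ p i, x = W.map (π p) (s.e i)},
      ∀ b ∈ {x | ∃ p i, x = W.map (π p) (s.e i)}, a * b = b * a := by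
    rintro _ ⟨p, i, rfl⟩ _ ⟨q, j, rfl⟩
    rw [W.comm (W.map_mem _ (s.e_gr hmid i)) (W.map_mem _ (s.e_gr hmid j)),
      ((hdg i).mul_right _).neg_one_pow, one_smul]
  exact congrArg Subtype.val
    ((Algebra.adjoinCommRingOfComm W.K h1).mul_comm ⟨x, hx⟩ ⟨y, hy⟩)

/-- **The sums over the free positions with a determinant.** -/
theorem det_sum (hmid : transcendental W X ≤ W.gr X X.dim) (heven : Even X.dim)
    {c : Fin N → Option (Fin s.NC)} {m : ℕ} (e : (Fin m × Fin 2) ⊕ Fin s.NT ≃ Free c) :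
    ∃ (i : ℕ) (x : W.H Y), Mqd s π i x ∧ ∑ r : Free c → Fin s.NT,
      (detAt (K := W.K) (fun a => e (Sum.inr a)) r *
        ∏ l, bil W X (s.uT (r (e (Sum.inl (l, 0))))) (s.uT (r (e (Sum.inl (l, 1)))))) •
        mono π (fun p => s.e (comb c r p)) = x := by
  classical
  have hA := facAlg_comm (s := s) (π := π) hmid heven
  letI : CommRing (facAlg s π) := commOf hA
  let E : Fin N → Fin s.NC ⊕ Fin s.NT → facAlg s π := fun p i =>
    ⟨W.map (π p) (s.e i), Algebra.subset_adjoin ⟨p, i, rfl⟩⟩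
  have hE : ∀ p i, (E p i : W.H Y) = W.map (π p) (s.e i) := fun _ _ => rfl
  have hlist : ∀ (M : ℕ) (f : Fin M → facAlg s π),
      ((∏ p, f p : facAlg s π) : W.H Y) = (List.ofFn fun p => (f p : W.H Y)).prod := by
    intro M f
    rw [← List.prod_ofFn]
    change (facAlg s π).val _ = _
    rw [map_list_prod, List.map_ofFn]
    rfl
  have h1 := sum_free (K := W.K) (A := facAlg s π) e E
    (fun i j => bil W X (s.uT i) (s.uT j))
  have h2 := congrArg (fun a : facAlg s π => (a : W.H Y)) h1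
  have hpair : ∀ l : Fin m, ((∑ a : Fin 2 → Fin s.NT, bil W X (s.uT (a 0)) (s.uT (a 1)) •
      (E (e (Sum.inl (l, 0))).1 (Sum.inr (a 0)) * E (e (Sum.inl (l, 1))).1 (Sum.inr (a 1))) :
        facAlg s π) : W.H Y) = W.map (Obj.lift (π (e (Sum.inl (l, 0))).1)
          (π (e (Sum.inl (l, 1))).1)) (dQ s) := by
    intro l
    rw [dQ, map_sum]
    change (facAlg s π).val _ = _
    rw [map_sum]
    refine Finset.sum_congr rfl fun a _ => ?_
    rw [map_smul, map_smul, map_mul, map_mul, ← W.map_comp, ← W.map_comp, Obj.lift_fst,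
      Obj.lift_snd]
    change _ • (W.map (π _) (s.e (Sum.inr (a 0))) * W.map (π _) (s.e (Sum.inr (a 1)))) = _
    rw [s.e_inr, s.e_inr]
  obtain ⟨i1, hi1⟩ := Mqd.prod (s := s) (π := π) hA Finset.univ
    (fun l : Fin m => (∑ a : Fin 2 → Fin s.NT, bil W X (s.uT (a 0)) (s.uT (a 1)) •
      (E (e (Sum.inl (l, 0))).1 (Sum.inr (a 0)) * E (e (Sum.inl (l, 1))).1 (Sum.inr (a 1))) :
        facAlg s π)) (fun l _ => by
      refine ⟨X.dim + 0, ?_⟩
      rw [hpair l, ← mul_one (W.map _ (dQ s))]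
      refine Mqd.of (Mq.pair Mq.one (Finset.notMem_empty _) (Finset.notMem_empty _) ?_)
      intro h
      have h3 := e.injective (Subtype.ext h)
      rw [Sum.inl.injEq, Prod.mk.injEq] at h3
      exact absurd h3.2 (by decide))
  obtain ⟨i3, hi3⟩ := Mqd.prod (s := s) (π := π) hA Finset.univ
    (fun p : {p // ¬ c p = none} => ((c p.1).elim 1 fun i => E p.1 (Sum.inl i) :
        facAlg s π)) (fun p _ => by
      obtain ⟨i, hi⟩ := Option.ne_none_iff_exists'.1 p.2
      refine ⟨s.jC i + 0, ?_⟩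
      rw [hi]
      change Mqd s π _ (W.map (π p.1) (s.e (Sum.inl i)))
      rw [s.e_inl, ← mul_one (W.map _ _)]
      exact Mqd.of (Mq.single i Mq.one (Finset.notMem_empty _)))
  have hdet : ((∑ σ : Equiv.Perm (Fin s.NT), (Equiv.Perm.sign σ : ℤ) •
      ∏ a, E (e (Sum.inr a)).1 (Sum.inr (σ a)) : facAlg s π) : W.H Y) =
      detc W (fun a => π (e (Sum.inr a)).1) s.bT := by
    rw [detc_apply]
    change (facAlg s π).val _ = _
    rw [map_sum]
    refine Finset.sum_congr rfl fun σ _ => ?_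
    rw [map_zsmul]
    congr 1
    change ((∏ a, E (e (Sum.inr a)).1 (Sum.inr (σ a)) : facAlg s π) : W.H Y) = _
    rw [hlist, mono]
    congr 2
    funext a
    rw [hE, s.e_inr]
  have hi2 : Mqd s π (X.dim / 2 * s.NT) (detc W (fun a => π (e (Sum.inr a)).1) s.bT) :=
    Mqd.det (s := s) (π := π) fun a => (e (Sum.inr a)).1
  refine ⟨_, _, Mqd.mul (Mqd.mul hi1 hi2) hi3, ?_⟩
  have h5 : ∑ r : Free c → Fin s.NT,
      (detAt (K := W.K) (fun a => e (Sum.inr a)) r *
        ∏ l, bil W X (s.uT (r (e (Sum.inl (l, 0))))) (s.uT (r (e (Sum.inl (l, 1)))))) •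
        mono π (fun p => s.e (comb c r p)) = ((∑ r : Free c → Fin s.NT,
      (detAt (K := W.K) (fun a => e (Sum.inr a)) r *
        ∏ l, bil W X (s.uT (r (e (Sum.inl (l, 0))))) (s.uT (r (e (Sum.inl (l, 1)))))) •
        ∏ p, E p (comb c r p) : facAlg s π) : W.H Y) := by
    change _ = (facAlg s π).val _
    rw [map_sum]
    refine Finset.sum_congr rfl fun r _ => ?_
    rw [map_smul]
    congr 1
    change _ = ((∏ p, E p (comb c r p) : facAlg s π) : W.H Y)
    rw [hlist, mono]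
  rw [h5]
  refine h2.trans ?_
  rw [← hdet]
  rfl

end Pool.Agent.R929.NT
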