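import Pool.Agent.Y127.FftS

/-!
# The first fundamental theorem for the special orthogonal group, module valued, with determinants
-/

set_option autoImplicit false
set_option linter.unusedSectionVars false

namespace Pool.Agent.R929.NT

open Matrix Finset Module Function
open Pool.Agent.Y127 (opA opA_con con1 exists_dec dtf dtf_swap dtf_zero)
open Pool.Agent.TH125.Nod (Inv gen Gen mul_Gen rho_Gen inv_con)

universe u v

variable {K : Type u} [Field K] {J : Type} [Fintype J] [DecidableEq J]
  {M : Type v} [AddCommGroup M] [Module K M]

/-- the determinant form on the positions `e a` -/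
def detAt {S : Type} (e : J → S) (x : S → J) : K :=
  (Matrix.of fun a b : J => if x (e a) = b then (1 : K) else 0).det

/-- determinants times products over pairs, in coordinates -/
def DGen (K : Type u) [Field K] (M : Type v) [AddCommGroup M] [Module K M]
    (Q : Matrix J J K) (S : Type) : Submodule K ((S → J) → M) :=
  Submodule.span K {g | ∃ (m : ℕ) (e : (Fin m × Fin 2) ⊕ J ≃ S) (w : M),
    g = fun x => (detAt (fun a => e (Sum.inr a)) x *
      ∏ l, Q (x (e (Sum.inl (l, 0)))) (x (e (Sum.inl (l, 1))))) • w}

variable {S : Type} [Fintype S] [DecidableEq S]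

theorem mul_DGen {Q : Matrix J J K} {a b : S} (hab : a ≠ b)
    {g : ({x // x ≠ a ∧ x ≠ b} → J) → M} (hg : g ∈ DGen K M Q {x // x ≠ a ∧ x ≠ b}) :
    (fun x : S → J => Q (x a) (x b) • g (fun y => x y.1)) ∈ DGen K M Q S := by
  unfold DGen at hg
  induction hg using Submodule.span_induction with
  | mem g hg =>
    obtain ⟨m, e, w, rfl⟩ := hg
    let F : (Fin (m + 1) × Fin 2) ⊕ J → S := Sum.elim (fun p =>
      Fin.cases (motive := fun _ => S) (if p.2 = 0 then a else b)
        (fun l => (e (Sum.inl (l, p.2))).1) p.1) (fun j => (e (Sum.inr j)).1)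
    have hF0 : F (Sum.inl (0, 0)) = a := rfl
    have hF1 : F (Sum.inl (0, 1)) = b := rfl
    have hFs : ∀ l t, F (Sum.inl (Fin.succ l, t)) = (e (Sum.inl (l, t))).1 := fun l t => rfl
    have hFr : ∀ j, F (Sum.inr j) = (e (Sum.inr j)).1 := fun j => rfl
    have hinj : ∀ t l' t', F (Sum.inl (0, t)) ≠ F (Sum.inl (Fin.succ l', t')) := by
      intro t l' t' h
      rw [hFs] at h
      have := (e (Sum.inl (l', t'))).2
      fin_cases t
      · exact absurd h.symm this.1
      · exact absurd h.symm this.2
    have hinj2 : ∀ t j, F (Sum.inl (0, t)) ≠ F (Sum.inr j) := by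
      intro t j h
      rw [hFr] at h
      have := (e (Sum.inr j)).2
      fin_cases t
      · exact absurd h.symm this.1
      · exact absurd h.symm this.2
    have hbij : Function.Bijective F := by
      constructor
      · rintro (⟨l, t⟩ | j) (⟨l', t'⟩ | j') h
        · induction l using Fin.cases with
          | zero =>
            induction l' using Fin.cases with
            | zero =>
              fin_cases t <;> fin_cases t'
              · rfl
              · exact absurd h hab
              · exact absurd h (Ne.symm hab)
              · rfl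
            | succ l' => exact absurd h (hinj _ _ _)
          | succ l =>
            induction l' using Fin.cases with
            | zero => exact absurd h.symm (hinj _ _ _)
            | succ l' =>
              rw [hFs, hFs] at h
              have h1 := Sum.inl_injective (e.injective (Subtype.ext h))
              rw [Prod.mk.injEq] at h1
              rw [h1.1, h1.2]
        · induction l using Fin.cases with
          | zero => exact absurd h (hinj2 _ _)
          | succ l =>
            rw [hFs, hFr] at h
            exact absurd (e.injective (Subtype.ext h)) (by simp)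
        · induction l' using Fin.cases with
          | zero => exact absurd h.symm (hinj2 _ _)
          | succ l =>
            rw [hFs, hFr] at h
            exact absurd (e.injective (Subtype.ext h)) (by simp)
        · rw [hFr, hFr] at h
          rw [Sum.inr_injective (e.injective (Subtype.ext h))]
      · intro x
        by_cases h1 : x = a
        · exact ⟨Sum.inl (0, 0), by rw [hF0, h1]⟩
        by_cases h2 : x = b
        · exact ⟨Sum.inl (0, 1), by rw [hF1, h2]⟩
        obtain ⟨y, hy⟩ := e.surjective ⟨x, h1, h2⟩
        rcases y with ⟨l, t⟩ | j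
        · exact ⟨Sum.inl (Fin.succ l, t), by rw [hFs, hy]⟩
        · exact ⟨Sum.inr j, by rw [hFr, hy]⟩
    refine Submodule.subset_span ⟨m + 1, Equiv.ofBijective F hbij, w, ?_⟩
    funext x
    rw [Fin.prod_univ_succ, smul_smul]
    congr 1
    exact (by intros; ring : ∀ q d p : K, q * (d * p) = d * (q * p)) _ _ _
  | zero =>
    have h1 : (fun x : S → J => Q (x a) (x b) •
        (0 : ({x // x ≠ a ∧ x ≠ b} → J) → M) (fun y => x y.1)) = 0 := by
      funext x
      rw [Pi.zero_apply, smul_zero, Pi.zero_apply]
    rw [h1]
    exact Submodule.zero_mem _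
  | add f f' _ _ hf hf' =>
    have h1 := Submodule.add_mem _ hf hf'
    have h2 : (fun x : S → J => Q (x a) (x b) • (f + f') (fun y => x y.1)) =
        (fun x : S → J => Q (x a) (x b) • f (fun y => x y.1)) +
        fun x : S → J => Q (x a) (x b) • f' (fun y => x y.1) := by
      funext x
      rw [Pi.add_apply, Pi.add_apply, smul_add]
    rw [h2]
    exact h1
  | smul c f _ hf =>
    have h1 := Submodule.smul_mem _ c hf
    have h2 : (fun x : S → J => Q (x a) (x b) • (c • f) (fun y => x y.1)) =
        c • fun x : S → J => Q (x a) (x b) • f (fun y => x y.1) := by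
      funext x
      rw [Pi.smul_apply, Pi.smul_apply, smul_comm]
    rw [h2]
    exact h1

theorem perm_DGen {Q : Matrix J J K} (σ : Equiv.Perm S) {f : (S → J) → M}
    (hf : f ∈ DGen K M Q S) : (fun x : S → J => f (fun j => x (σ j))) ∈ DGen K M Q S := by
  unfold DGen at hf
  induction hf using Submodule.span_induction with
  | mem f hf =>
    obtain ⟨m, e, w, rfl⟩ := hf
    exact Submodule.subset_span ⟨m, e.trans σ, w, rfl⟩
  | zero => exact Submodule.zero_mem _
  | add f f' _ _ hf hf' => exact Submodule.add_mem _ hf hf'
  | smul c f _ hf => exact Submodule.smul_mem _ c hf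

theorem top_DGen {Q : Matrix J J K} (hc : Fintype.card S = Fintype.card J) {f : (S → J) → M}
    (h1 : ∀ x, ¬Bijective x → f x = 0)
    (h2 : ∀ x a b, a ≠ b → f (x ∘ Equiv.swap a b) = -f x) : f ∈ DGen K M Q S := by
  classical
  let e : J ≃ S := Fintype.equivOfCardEq hc.symm
  refine Submodule.subset_span ⟨0, (Equiv.emptySum (Fin 0 × Fin 2) J).trans e, f e.symm, ?_⟩
  have hmain : ∀ x, f x = (dtf e x : K) • f e.symm := by
    intro x
    by_cases hx : Bijective x
    · let σ : Equiv.Perm S := (Equiv.ofBijective x hx).trans e
      have hσ : x = e.symm ∘ σ := by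
        funext s
        simp [σ]
      have h3 : ∀ σ : Equiv.Perm S, f (e.symm ∘ σ) = (dtf e (e.symm ∘ σ) : K) • f e.symm := by
        intro σ
        induction σ using Equiv.Perm.swap_induction_on' with
        | one =>
          have h4 : (dtf e (e.symm ∘ (1 : Equiv.Perm S)) : K) = 1 := by
            rw [dtf]
            have h5 : (Matrix.of fun a b : J => if (e.symm ∘ (1 : Equiv.Perm S)) (e a) = b
                then (1 : K) else 0) = 1 := by
              ext a b
              simp [Matrix.one_apply]
            rw [h5, Matrix.det_one]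
          rw [h4, one_smul]
          rfl
        | mul_swap f' a b hab ih =>
          have h4 : (e.symm ∘ (f' * Equiv.swap a b : Equiv.Perm S)) =
              (e.symm ∘ f') ∘ Equiv.swap a b := rfl
          rw [h4, h2 _ a b hab, dtf_swap e _ hab, ih, neg_smul]
      rw [hσ]
      exact h3 σ
    · rw [h1 x hx, dtf_zero e hx, zero_smul]
  funext x
  rw [hmain x, Finset.univ_eq_empty, Finset.prod_empty, mul_one]
  rfl

variable {Q R : Matrix J J K} (hQs : ∀ a b, Q a b = Q b a) (hQR : Q * R = 1)

include hQs hQR in
/-- **The first fundamental theorem** for the special orthogonal group. -/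
theorem fftSOM [CharZero K] (N : ℕ) : ∀ (S : Type) [Fintype S] [DecidableEq S]
    (f : (S → J) → M), Fintype.card S = N → Inv (fun _ : J => ()) Q (fun _ => 1) f →
    f ∈ Gen (fun _ : J => ()) Q (fun _ : S => ()) ⊔ DGen K M Q S := by
  classical
  induction N using Nat.strong_induction_on with
  | _ N ih =>
    intro S _ _ f hN hinv
    rcases isEmpty_or_nonempty S with hS | hS
    · refine Submodule.mem_sup_left (Submodule.subset_span
        ⟨0, Equiv.equivOfIsEmpty _ _, f (fun j => (hS.false j).elim), ?_⟩)
      funext J
      unfold gen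
      rw [if_pos (fun j => (hS.false j).elim), Finset.univ_eq_empty, Finset.prod_empty, one_smul]
      congr 1
      funext j
      exact (hS.false j).elim
    · have hA : opA f ∈ Gen (fun _ : J => ()) Q (fun _ : S => ()) ⊔ DGen K M Q S := by
        rw [opA_con hQR hinv]
        refine Submodule.sum_mem _ fun a _ => Submodule.sum_mem _ fun b hb => ?_
        have hab : a ≠ b := Ne.symm (Finset.mem_erase.1 hb).1
        have h1 : con1 R a b f ∈ Gen (fun _ : J => ()) Q (fun _ : {x // x ≠ a ∧ x ≠ b} => ()) ⊔
            DGen K M Q {x // x ≠ a ∧ x ≠ b} := by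
          refine ih (Fintype.card {x // x ≠ a ∧ x ≠ b}) ?_ _ _ rfl ?_
          · rw [← hN]
            exact Fintype.card_subtype_lt (x := a) (fun h => h.1 rfl)
          · have h2 := inv_con (κ := fun _ : J => ()) (Q := Q) (R := R) (s := fun _ => 1)
              (fun _ => Or.inl rfl) (fun a b h => absurd rfl h)
              (fun a b => by rw [Int.cast_one, one_mul]; exact hQs a b) hQR
              (f := f) (by simpa using hinv) (i := ()) hab
            simpa using h2
        obtain ⟨f0, hf0, f1, hf1, hff⟩ := Submodule.mem_sup.1 h1
        rw [← hff]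
        have h2 := mul_Gen (fun _ : J => ()) Q (fun _ : S => ()) hab hf0
        refine Submodule.mem_sup.2 ⟨_, h2, _, mul_DGen hab hf1, ?_⟩
        funext x
        rw [Pi.add_apply, Pi.add_apply, smul_add, if_pos (fun _ => rfl)]
      obtain ⟨f₀, h1, h2, h3⟩ := exists_dec (K := K)
        (Gen (fun _ : J => ()) Q (fun _ : S => ()) ⊔ DGen K M Q S)
        (fun g hg a b => by
          obtain ⟨f0, hf0, f1, hf1, rfl⟩ := Submodule.mem_sup.1 hg
          have h4 := rho_Gen (K := K) (κ := fun _ : J => ()) (Q := Q) (c := fun _ : S => ())
            (σ := Equiv.swap a b) (fun _ => rfl) hf0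
          exact Submodule.mem_sup.2 ⟨_, h4, _, perm_DGen (Equiv.swap a b) hf1, rfl⟩) hA
      have hf0 : f₀ ∈ Gen (fun _ : J => ()) Q (fun _ : S => ()) ⊔ DGen K M Q S := by
        by_cases hc : Fintype.card S = Fintype.card J
        · obtain ⟨h4, h5⟩ := h3 hc
          exact Submodule.mem_sup_right (top_DGen hc h4 h5)
        · rw [h2 Fintype.card_pos hc]
          exact Submodule.zero_mem _
      have h4 := Submodule.add_mem _ h1 hf0
      rwa [sub_add_cancel] at h4

end Pool.Agent.R929.NT
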